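import Mathlib

/-! Definitions for the ordered cube bound. -/

namespace Pool.Agent.Helper96.OR

open Finset

/-- average of `b` over the rectangle `U × V` -/
noncomputable def dens (b : ℕ → ℕ → ℝ) (U V : Finset ℕ) : ℝ :=
  (∑ r ∈ U, ∑ c ∈ V, b r c) / ((U.card : ℝ) * V.card)

/-- index type: words of length `k` over `Fin q` -/
def Idx (q : ℕ) : ℕ → Type
  | 0 => Unit
  | k + 1 => Idx q k × Fin q

instance instFintypeIdx (q : ℕ) : ∀ k, Fintype (Idx q k)
  | 0 => (inferInstance : Fintype Unit)
  | k + 1 => @instFintypeProd _ _ (instFintypeIdx q k) _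

instance instDecEqIdx (q : ℕ) : ∀ k, DecidableEq (Idx q k)
  | 0 => (inferInstance : DecidableEq Unit)
  | k + 1 => @instDecidableEqProd _ _ (instDecEqIdx q k) _

/-- adjacency: equal except in one letter, where the letters are `h`-adjacent -/
def adj {q : ℕ} (h : Fin q → Fin q → Prop) : ∀ k, Idx q k → Idx q k → Prop
  | 0 => fun _ _ => False
  | k + 1 => fun u v => (u.1 = v.1 ∧ h u.2 v.2) ∨ (adj h k u.1 v.1 ∧ u.2 = v.2)

/-- lexicographic rank -/
def rank {q : ℕ} : ∀ k, Idx q k → ℕ
  | 0 => fun _ => 0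
  | k + 1 => fun u => rank k u.1 * q + u.2

/-- the refined weight after one block -/
noncomputable def wt' {A : Type} [DecidableEq A] {q : ℕ} (wt : A → A → ℝ) (h : Fin q → Fin q → Prop) (l : ℝ) :
    A × Fin q → A × Fin q → ℝ := by
  classical
  exact fun u v =>
    if u.1 = v.1 then (if h u.2 v.2 then 1 else if u.2 = v.2 then wt u.1 u.1 - l else 0)
    else if u.2 = v.2 then wt u.1 v.1 else 0

end Pool.Agent.Helper96.OR
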