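import Mathlib
import Pool.Agent.Helper55.LF.LLL

/-! M1: local lemma for a finite product space with uniform measure. -/

namespace Pool.Agent.Helper96.OR

open Finset

/-- exchange the coordinates in `S` -/
noncomputable def m1swap {A : Type} [DecidableEq A] {Ω : A → Type} (S : Finset A)
    (x : (∀ a, Ω a) × (∀ a, Ω a)) : (∀ a, Ω a) × (∀ a, Ω a) :=
  (fun a => if a ∈ S then x.1 a else x.2 a, fun a => if a ∈ S then x.2 a else x.1 a)

theorem m1swap_swap {A : Type} [DecidableEq A] {Ω : A → Type} (S : Finset A)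
    (x : (∀ a, Ω a) × (∀ a, Ω a)) : m1swap S (m1swap S x) = x := by
  refine Prod.ext ?_ ?_ <;> funext a <;> by_cases h : a ∈ S <;> simp [m1swap, h]

/-- independence -/
theorem m1_indep {A : Type} [Fintype A] [DecidableEq A] {Ω : A → Type}
    [∀ a, Fintype (Ω a)] (E F : Set (∀ a, Ω a)) (S : Finset A)
    (hE : ∀ ω ω' : ∀ a, Ω a, (∀ a ∈ S, ω a = ω' a) → ω ∈ E → ω' ∈ E)
    (hF : ∀ ω ω' : ∀ a, Ω a, (∀ a, a ∉ S → ω a = ω' a) → ω ∈ F → ω' ∈ F) :
    (E ∩ F).ncard * Fintype.card (∀ a, Ω a) ≤ E.ncard * F.ncard := by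
  have h1 : (E ∩ F).ncard * Fintype.card (∀ a, Ω a) =
      ((E ∩ F) ×ˢ (Set.univ : Set (∀ a, Ω a))).ncard := by
    rw [Set.ncard_prod, Set.ncard_univ, Nat.card_eq_fintype_card]
  rw [h1, ← Set.ncard_prod]
  refine Set.ncard_le_ncard_of_injOn (m1swap S) ?_ ?_ (Set.toFinite _)
  · rintro ⟨ω, ω'⟩ ⟨⟨h2, h3⟩, _⟩
    refine ⟨?_, ?_⟩
    · exact hE ω _ (fun a ha => by simp [m1swap, ha]) h2
    · exact hF ω _ (fun a ha => by simp [m1swap, ha]) h3
  · intro x _ y _ hxy
    have := congrArg (m1swap S) hxy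
    rwa [m1swap_swap, m1swap_swap] at this

/-- local lemma, product form.  Event `E i` depends only on the coordinates in `S i`. -/
theorem lll_prod {A ι : Type} [Fintype A] [DecidableEq A] [Fintype ι] (Ω : A → Type)
    [∀ a, Fintype (Ω a)] [∀ a, Nonempty (Ω a)] (E : ι → Set (∀ a, Ω a)) (S : ι → Finset A)
    (hdep : ∀ i (ω ω' : ∀ a, Ω a), (∀ a ∈ S i, ω a = ω' a) → (ω ∈ E i ↔ ω' ∈ E i))
    (p : ℝ) (hp : ∀ i, ((E i).ncard : ℝ) ≤ p * Fintype.card (∀ a, Ω a))
    (D : ℕ) (hD : ∀ i, {j : ι | ¬ Disjoint (S i) (S j)}.ncard ≤ D)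
    (hpD : p * (D + 1) ≤ 1 / 4) : ∃ ω : ∀ a, Ω a, ∀ i, ω ∉ E i := by
  classical
  have hn : (0 : ℝ) < Fintype.card (∀ a, Ω a) := by exact_mod_cast Fintype.card_pos
  have key := Pool.Agent.Helper55.LF.lll (Ω := ∀ a, Ω a) E
    (fun i j => ¬ Disjoint (S i) (S j)) ?_ ?_ _ le_rfl
  · have hpos : (0 : ℝ) < ({ω : ∀ a, Ω a | ∀ i, ω ∉ E i}.ncard : ℝ) :=
      lt_of_lt_of_le (mul_pos (Real.exp_pos _) hn) key
    have hpos' : 0 < {ω : ∀ a, Ω a | ∀ i, ω ∉ E i}.ncard := by exact_mod_cast hpos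
    obtain ⟨ω, hω⟩ := (Set.ncard_pos (Set.toFinite _)).1 hpos'
    exact ⟨ω, hω⟩
  · intro i T hT
    have h1 := m1_indep (E i) {ω | ∀ j ∈ T, ω ∉ E j} (S i)
      (fun ω ω' h hω => (hdep i ω ω' h).1 hω)
      (fun ω ω' h hω j hj hmem => by
        refine hω j hj ((hdep j ω ω' ?_).2 hmem)
        intro a ha
        refine h a fun ha' => ?_
        have h2 : Disjoint (S i) (S j) := not_not.1 (hT j hj)
        exact Finset.disjoint_left.1 h2 ha' ha)
    exact_mod_cast h1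
  · intro i T hT
    have hp0 : 0 ≤ p := by
      have h1 := hp i
      have h2 : (0 : ℝ) ≤ ((E i).ncard : ℝ) := Nat.cast_nonneg _
      by_contra hc
      push Not at hc
      have := mul_neg_of_neg_of_pos hc hn
      linarith
    have hcard : T.card ≤ D + 1 := by
      have h1 : (T : Set ι) ⊆ {j : ι | ¬ Disjoint (S i) (S j)} ∪ {i} := by
        intro j hj
        rcases hT j hj with h | h
        · exact Or.inl h
        · exact Or.inr h
      have h2 := Set.ncard_le_ncard h1 (Set.toFinite _)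
      rw [Set.ncard_coe_finset] at h2
      refine h2.trans ((Set.ncard_union_le _ _).trans ?_)
      rw [Set.ncard_singleton]
      exact Nat.add_le_add_right (hD i) 1
    calc ∑ j ∈ T, ((E j).ncard : ℝ) / Fintype.card (∀ a, Ω a) ≤ ∑ _j ∈ T, p := by
          refine Finset.sum_le_sum fun j _ => ?_
          rw [div_le_iff₀ hn]
          exact hp j
      _ = T.card * p := by rw [Finset.sum_const, nsmul_eq_mul]
      _ ≤ ((D : ℝ) + 1) * p := by
          have : (T.card : ℝ) ≤ (D : ℝ) + 1 := by exact_mod_cast hcard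
          gcongr
      _ ≤ 1 / 4 := by rw [mul_comm]; exact hpD

end Pool.Agent.Helper96.OR
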