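import Mathlib

/-! M2: exponential tail bound for sums of independent bounded variables, counting form. -/

namespace Pool.Agent.Helper96.OR

open Finset

theorem M2_exp_le {x : ℝ} (h0 : 0 ≤ x) (h1 : x ≤ 1) :
    Real.exp x ≤ 1 + (Real.exp 1 - 1) * x := by
  have h := convexOn_exp.2 (Set.mem_univ (0 : ℝ)) (Set.mem_univ (1 : ℝ))
    (show (0 : ℝ) ≤ 1 - x by linarith) h0 (show (1 - x) + x = 1 by ring)
  simp only [smul_eq_mul, mul_zero, mul_one, zero_add, Real.exp_zero] at h
  linarith

/-- a sum of independent variables with values in `[0,c]` and total mean at most `m` exceeds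
`2m + s c` with probability at most `exp (-s)` -/
theorem tail {A : Type} [Fintype A] [DecidableEq A] (Ω : A → Type) [∀ a, Fintype (Ω a)]
    [∀ a, Nonempty (Ω a)] (X : ∀ a, Ω a → ℝ) (c s m : ℝ) (hc : 0 < c)
    (h0 : ∀ a ω, 0 ≤ X a ω) (h1 : ∀ a ω, X a ω ≤ c)
    (hm : ∑ a, (∑ ω, X a ω) / Fintype.card (Ω a) ≤ m) :
    ({ω : ∀ a, Ω a | 2 * m + s * c < ∑ a, X a (ω a)}.ncard : ℝ) ≤
      Real.exp (-s) * Fintype.card (∀ a, Ω a) := by
  classical
  have hcard : ∀ a, (0 : ℝ) < Fintype.card (Ω a) := fun a => by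
    exact_mod_cast Fintype.card_pos
  have he2 : Real.exp 1 - 1 ≤ 2 := by
    have := Real.exp_one_lt_d9
    linarith
  have he0 : 0 ≤ Real.exp 1 - 1 := by
    have := Real.add_one_le_exp (1 : ℝ)
    linarith
  set μ : A → ℝ := fun a => (∑ ω, X a ω) / Fintype.card (Ω a) with hμ
  have hμ0 : ∀ a, 0 ≤ μ a := fun a => div_nonneg (Finset.sum_nonneg fun ω _ => h0 a ω) (hcard a).le
  -- one factor
  have hone : ∀ a, ∑ ω, Real.exp (X a ω / c) ≤
      Fintype.card (Ω a) * Real.exp ((Real.exp 1 - 1) * μ a / c) := by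
    intro a
    calc ∑ ω, Real.exp (X a ω / c) ≤ ∑ ω, (1 + (Real.exp 1 - 1) * (X a ω / c)) :=
          Finset.sum_le_sum fun ω _ => M2_exp_le (div_nonneg (h0 a ω) hc.le)
            ((div_le_one hc).2 (h1 a ω))
      _ = Fintype.card (Ω a) * (1 + (Real.exp 1 - 1) * μ a / c) := by
          rw [Finset.sum_add_distrib, ← Finset.mul_sum, ← Finset.sum_div, Finset.sum_const,
            nsmul_eq_mul, mul_one, Finset.card_univ]
          have h2 : ∑ ω, X a ω = Fintype.card (Ω a) * μ a := by
            show _ = (Fintype.card (Ω a) : ℝ) * ((∑ ω, X a ω) / Fintype.card (Ω a))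
            rw [mul_div_cancel₀ _ (hcard a).ne']
          rw [h2]
          ring
      _ ≤ Fintype.card (Ω a) * Real.exp ((Real.exp 1 - 1) * μ a / c) := by
          apply mul_le_mul_of_nonneg_left _ (hcard a).le
          have := Real.add_one_le_exp ((Real.exp 1 - 1) * μ a / c)
          linarith
  -- the exponential moment
  have hmom : ∑ ω : ∀ a, Ω a, Real.exp ((∑ a, X a (ω a)) / c) ≤
      Fintype.card (∀ a, Ω a) * Real.exp (2 * m / c) := by
    have e1 : ∀ ω : ∀ a, Ω a, Real.exp ((∑ a, X a (ω a)) / c) =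
        ∏ a, Real.exp (X a (ω a) / c) := by
      intro ω
      rw [Finset.sum_div, Real.exp_sum]
    have e2 : ∑ ω : ∀ a, Ω a, ∏ a, Real.exp (X a (ω a) / c) =
        ∏ a, ∑ ω, Real.exp (X a ω / c) := by
      rw [Finset.prod_univ_sum, Fintype.piFinset_univ]
    rw [Finset.sum_congr rfl fun ω _ => e1 ω, e2]
    calc ∏ a, ∑ ω, Real.exp (X a ω / c)
        ≤ ∏ a, (Fintype.card (Ω a) * Real.exp ((Real.exp 1 - 1) * μ a / c)) :=
          Finset.prod_le_prod (fun a _ => Finset.sum_nonneg fun ω _ => (Real.exp_pos _).le)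
            fun a _ => hone a
      _ = Fintype.card (∀ a, Ω a) * Real.exp ((Real.exp 1 - 1) * (∑ a, μ a) / c) := by
          rw [Finset.prod_mul_distrib, ← Real.exp_sum, Fintype.card_pi]
          push_cast
          congr 2
          rw [← Finset.sum_div, ← Finset.mul_sum]
      _ ≤ Fintype.card (∀ a, Ω a) * Real.exp (2 * m / c) := by
          apply mul_le_mul_of_nonneg_left _ (Nat.cast_nonneg _)
          apply Real.exp_le_exp.2
          apply div_le_div_of_nonneg_right _ hc.le
          have h3 : 0 ≤ ∑ a, μ a := Finset.sum_nonneg fun a _ => hμ0 a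
          exact mul_le_mul he2 hm h3 (by norm_num)
  -- Markov
  set S : Finset (∀ a, Ω a) := Finset.univ.filter fun ω => 2 * m + s * c < ∑ a, X a (ω a) with hS
  have hSc : {ω : ∀ a, Ω a | 2 * m + s * c < ∑ a, X a (ω a)}.ncard = S.card := by
    rw [← Set.ncard_coe_finset]
    congr 1
    ext ω
    simp [hS]
  rw [hSc]
  have hmk : (S.card : ℝ) * Real.exp (2 * m / c + s) ≤
      Fintype.card (∀ a, Ω a) * Real.exp (2 * m / c) := by
    refine le_trans ?_ hmom
    calc (S.card : ℝ) * Real.exp (2 * m / c + s) = ∑ ω ∈ S, Real.exp (2 * m / c + s) := by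
          rw [Finset.sum_const, nsmul_eq_mul]
      _ ≤ ∑ ω ∈ S, Real.exp ((∑ a, X a (ω a)) / c) := by
          refine Finset.sum_le_sum fun ω hω => ?_
          apply Real.exp_le_exp.2
          have h4 := (Finset.mem_filter.1 hω).2
          have h5 : 2 * m / c + s = (2 * m + s * c) / c := by field_simp
          rw [h5]
          exact div_le_div_of_nonneg_right h4.le hc.le
      _ ≤ ∑ ω : ∀ a, Ω a, Real.exp ((∑ a, X a (ω a)) / c) :=
          Finset.sum_le_sum_of_subset_of_nonneg (Finset.subset_univ _)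
            fun ω _ _ => (Real.exp_pos _).le
  rw [Real.exp_add, ← mul_assoc] at hmk
  have hp := Real.exp_pos (2 * m / c)
  have hps := Real.exp_pos s
  have h6 : (S.card : ℝ) * Real.exp s ≤ Fintype.card (∀ a, Ω a) := by
    have h7 : ((S.card : ℝ) * Real.exp s) * Real.exp (2 * m / c) ≤
        Fintype.card (∀ a, Ω a) * Real.exp (2 * m / c) := by
      calc ((S.card : ℝ) * Real.exp s) * Real.exp (2 * m / c)
          = (S.card : ℝ) * Real.exp (2 * m / c) * Real.exp s := by ring
        _ ≤ _ := hmk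
    exact le_of_mul_le_mul_right h7 hp
  rw [Real.exp_neg, inv_mul_eq_div, le_div_iff₀ hps]
  exact h6

end Pool.Agent.Helper96.OR
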