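import Mathlib
import Pool.Agent.Helper96.OR.Defs

/-! Basic facts on averages over rectangles. -/

namespace Pool.Agent.Helper96.OR

open Finset

variable {b : ℕ → ℕ → ℝ}

theorem dens_nonneg (hb : ∀ r c, 0 ≤ b r c) (U V : Finset ℕ) : 0 ≤ dens b U V :=
  div_nonneg (sum_nonneg fun r _ => sum_nonneg fun c _ => hb r c) (by positivity)

theorem dens_singleton (r : ℕ) (V : Finset ℕ) : dens b {r} V = (∑ c ∈ V, b r c) / V.card := by
  simp [dens]

theorem dens_rows (U V : Finset ℕ) : dens b U V = (∑ r ∈ U, dens b {r} V) / U.card := by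
  simp only [dens_singleton]
  rw [← sum_div, dens, div_div, mul_comm (V.card : ℝ)]

theorem card_mul_dens (U V : Finset ℕ) : (U.card : ℝ) * dens b U V = ∑ r ∈ U, dens b {r} V := by
  rcases U.eq_empty_or_nonempty with rfl | h
  · simp
  · have : (U.card : ℝ) ≠ 0 := by exact_mod_cast h.card_pos.ne'
    rw [dens_rows, mul_div_cancel₀ _ this]

theorem dens_le_of_rows {U V : Finset ℕ} {x : ℝ} (hx : 0 ≤ x)
    (h : ∀ r ∈ U, dens b {r} V ≤ x) : dens b U V ≤ x := by
  rcases U.eq_empty_or_nonempty with rfl | hU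
  · simp [dens, hx]
  · have hc : (0 : ℝ) < U.card := by exact_mod_cast hU.card_pos
    rw [dens_rows, div_le_iff₀ hc]
    calc ∑ r ∈ U, dens b {r} V ≤ ∑ _r ∈ U, x := sum_le_sum h
      _ = x * U.card := by rw [sum_const, nsmul_eq_mul, mul_comm]

theorem le_dens_of_rows {U V : Finset ℕ} {x : ℝ} (hU : U.Nonempty)
    (h : ∀ r ∈ U, x ≤ dens b {r} V) : x ≤ dens b U V := by
  have hc : (0 : ℝ) < U.card := by exact_mod_cast hU.card_pos
  rw [dens_rows, le_div_iff₀ hc]
  calc x * U.card = ∑ _r ∈ U, x := by rw [sum_const, nsmul_eq_mul, mul_comm]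
    _ ≤ _ := sum_le_sum h

/-- equal blocks -/
theorem dens_blocks {M z : ℕ} (hz : 0 < z) (hM : 0 < M) (U W : Finset ℕ) (V : Fin M → Finset ℕ)
    (hV : ∀ j, (V j).card = z) (hd : ∀ j j', j ≠ j' → Disjoint (V j) (V j'))
    (hu : Finset.univ.biUnion V = W) : (M : ℝ) * dens b U W = ∑ j, dens b U (V j) := by
  have hd' : ∀ x ∈ (univ : Finset (Fin M)), ∀ y ∈ (univ : Finset (Fin M)), x ≠ y →
      Disjoint (V x) (V y) := fun x _ y _ h => hd x y h
  have hcard : W.card = M * z := by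
    rw [← hu, card_biUnion hd']
    simp [hV]
  have hz' : (z : ℝ) ≠ 0 := by exact_mod_cast hz.ne'
  have hM' : (M : ℝ) ≠ 0 := by exact_mod_cast hM.ne'
  have h1 : ∀ r, ∑ c ∈ W, b r c = ∑ j, ∑ c ∈ V j, b r c := by
    intro r
    rw [← hu, sum_biUnion hd']
  simp only [dens, hV, h1, hcard]
  rw [← sum_div, sum_comm (s := U)]
  push_cast
  rcases U.eq_empty_or_nonempty with rfl | hU
  · simp
  · have hc : (U.card : ℝ) ≠ 0 := by exact_mod_cast hU.card_pos.ne'
    field_simp

/-- averaging over a disjoint family of subsets -/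
theorem avg_select {M m z : ℕ} (hz : 0 < z) (hm : 0 < m) (hMm : M ≤ 4 * m) (W V : Finset ℕ)
    (hW : W.card = M * z) (U : Fin m → Finset ℕ) (hUW : ∀ i, U i ⊆ W) (hU : ∀ i, (U i).card = z)
    (hd : ∀ i i', i ≠ i' → Disjoint (U i) (U i')) (hb : ∀ r c, 0 ≤ b r c) :
    (∑ i, dens b (U i) V) / m ≤ 4 * dens b W V := by
  have hz' : (0 : ℝ) < z := by exact_mod_cast hz
  have hm' : (0 : ℝ) < m := by exact_mod_cast hm
  have h1 : ∀ i, dens b (U i) V = (∑ r ∈ U i, dens b {r} V) / z := fun i => by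
    rw [dens_rows, hU]
  have h2 : ∑ i, ∑ r ∈ U i, dens b {r} V ≤ ∑ r ∈ W, dens b {r} V := by
    rw [← sum_biUnion (fun x _ y _ h => hd x y h)]
    exact sum_le_sum_of_subset_of_nonneg (biUnion_subset.2 fun i _ => hUW i)
      fun r _ _ => dens_nonneg hb _ _
  rw [← card_mul_dens, hW] at h2
  have h3 : 0 ≤ dens b W V := dens_nonneg hb _ _
  rw [div_le_iff₀ hm']
  have h4 : (M : ℝ) ≤ 4 * m := by exact_mod_cast hMm
  calc ∑ i, dens b (U i) V = (∑ i, ∑ r ∈ U i, dens b {r} V) / z := by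
        rw [sum_div]; exact sum_congr rfl fun i _ => h1 i
    _ ≤ (((M * z : ℕ) : ℝ) * dens b W V) / z := by gcongr
    _ = M * dens b W V := by push_cast; field_simp
    _ ≤ 4 * m * dens b W V := by gcongr
    _ = 4 * dens b W V * m := by ring

/-- number of `i < L` with `2^i t ≤ x` -/
noncomputable def levf (L : ℕ) (t x : ℝ) : ℕ :=
  ((range L).filter fun i => (2 : ℝ) ^ i * t ≤ x).card

theorem levf_le (L : ℕ) (t x : ℝ) : levf L t x ≤ L := by
  refine (card_filter_le _ _).trans ?_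
  simp

theorem levf_zero (L : ℕ) {t : ℝ} (ht : 0 < t) : levf L t 0 = 0 := by
  rw [levf, card_eq_zero, filter_eq_empty_iff]
  intro i _ h
  have : (0 : ℝ) < 2 ^ i * t := by positivity
  linarith

theorem lt_levf {L : ℕ} {t x : ℝ} (ht : 0 < t) (hx : x < 2 ^ L * t) :
    x < 2 ^ (levf L t x) * t := by
  by_contra h
  push Not at h
  rcases (levf_le L t x).lt_or_eq with hl | hl
  · have : range (levf L t x + 1) ⊆ (range L).filter fun i => (2 : ℝ) ^ i * t ≤ x := by
      intro i hi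
      rw [mem_range] at hi
      rw [mem_filter, mem_range]
      refine ⟨by omega, le_trans ?_ h⟩
      have : (2 : ℝ) ^ i ≤ 2 ^ (levf L t x) := pow_le_pow_right₀ (by norm_num) (by omega)
      gcongr
    have := card_le_card this
    rw [card_range] at this
    change levf L t x + 1 ≤ levf L t x at this
    omega
  · rw [hl] at h
    linarith

theorem levf_le_two {L : ℕ} {t x : ℝ} (ht : 0 < t) (h0 : levf L t x ≠ 0) :
    2 ^ (levf L t x) * t ≤ 2 * x := by
  set k := levf L t x with hk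
  obtain ⟨i, hi, hik⟩ : ∃ i ∈ (range L).filter fun i => (2 : ℝ) ^ i * t ≤ x, k - 1 ≤ i := by
    by_contra h
    push Not at h
    have : (range L).filter (fun i => (2 : ℝ) ^ i * t ≤ x) ⊆ range (k - 1) := fun i hi =>
      mem_range.2 (h i hi)
    have := card_le_card this
    rw [card_range] at this
    change k ≤ k - 1 at this
    omega
  have h1 := (mem_filter.1 hi).2
  have h2 : (2 : ℝ) ^ (k - 1) ≤ 2 ^ i := pow_le_pow_right₀ (by norm_num) hik
  have h3 : (2 : ℝ) ^ k = 2 * 2 ^ (k - 1) := by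
    rw [← pow_succ']
    congr 1
    omega
  rw [h3]
  have : (2 : ℝ) ^ (k - 1) * t ≤ 2 ^ i * t := by gcongr
  linarith

end Pool.Agent.Helper96.OR
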