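import Mathlib

/-! M3: sliding windows of chunks of equal type. -/

namespace Pool.Agent.Helper96.OR

open Finset

/-- the rank of `r` in `S` -/
def m3_rk (S : Finset ℕ) (r : ℕ) : ℕ := (S.filter fun s => s < r).card

theorem m3_rk_mono (S : Finset ℕ) {r r' : ℕ} (h : r ≤ r') : m3_rk S r ≤ m3_rk S r' := by
  unfold m3_rk
  refine card_le_card fun s hs => ?_
  rw [mem_filter] at hs ⊢
  exact ⟨hs.1, lt_of_lt_of_le hs.2 h⟩

theorem m3_rk_lt {S : Finset ℕ} {r r' : ℕ} (hr : r ∈ S) (h : r < r') :
    m3_rk S r < m3_rk S r' := by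
  unfold m3_rk
  refine card_lt_card ?_
  rw [Finset.ssubset_iff_of_subset]
  · exact ⟨r, mem_filter.2 ⟨hr, h⟩, fun h' => lt_irrefl _ (mem_filter.1 h').2⟩
  · intro s hs
    rw [mem_filter] at hs ⊢
    exact ⟨hs.1, hs.2.trans h⟩

theorem m3_rk_lt_card {S : Finset ℕ} {r : ℕ} (hr : r ∈ S) : m3_rk S r < S.card := by
  unfold m3_rk
  refine card_lt_card ?_
  rw [Finset.ssubset_iff_of_subset (filter_subset _ _)]
  exact ⟨r, hr, fun h' => lt_irrefl _ (mem_filter.1 h').2⟩

theorem m3_rk_injOn (S : Finset ℕ) : Set.InjOn (m3_rk S) S := by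
  intro r hr r' hr' h
  rcases lt_trichotomy r r' with h1 | h1 | h1
  · exact absurd h (m3_rk_lt hr h1).ne
  · exact h1
  · exact absurd h (m3_rk_lt hr' h1).ne'

theorem m3_rk_image (S : Finset ℕ) : S.image (m3_rk S) = range S.card := by
  apply eq_of_subset_of_card_le
  · intro x hx
    obtain ⟨r, hr, rfl⟩ := mem_image.1 hx
    exact mem_range.2 (m3_rk_lt_card hr)
  · rw [card_range, card_image_of_injOn (m3_rk_injOn S)]

/-- the `j`th chunk of size `z` -/
def m3_chunk (S : Finset ℕ) (z j : ℕ) : Finset ℕ :=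
  S.filter fun r => j * z ≤ m3_rk S r ∧ m3_rk S r < (j + 1) * z

theorem m3_chunk_subset (S : Finset ℕ) (z j : ℕ) : m3_chunk S z j ⊆ S := filter_subset _ _

theorem m3_chunk_lt {S : Finset ℕ} {z j j' : ℕ} (h : j < j') {r r' : ℕ}
    (hr : r ∈ m3_chunk S z j) (hr' : r' ∈ m3_chunk S z j') : r < r' := by
  unfold m3_chunk at hr hr'
  rw [mem_filter] at hr hr'
  by_contra hc
  push Not at hc
  have h1 := m3_rk_mono S hc
  have h2 : (j + 1) * z ≤ j' * z := Nat.mul_le_mul_right _ h
  omega

theorem m3_chunk_disjoint {S : Finset ℕ} {z j j' : ℕ} (h : j ≠ j') :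
    Disjoint (m3_chunk S z j) (m3_chunk S z j') := by
  rw [Finset.disjoint_left]
  intro r hr hr'
  rcases Nat.lt_or_gt_of_ne h with h1 | h1
  · exact lt_irrefl _ (m3_chunk_lt h1 hr hr')
  · exact lt_irrefl _ (m3_chunk_lt h1 hr' hr)

theorem m3_chunk_disjoint' {S S' : Finset ℕ} (hS : S = S') {z j j' : ℕ} (h : j ≠ j') :
    Disjoint (m3_chunk S z j) (m3_chunk S' z j') := by
  subst hS
  exact m3_chunk_disjoint h

theorem m3_chunk_card {S : Finset ℕ} {z j : ℕ} (h : (j + 1) * z ≤ S.card) :
    (m3_chunk S z j).card = z := by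
  have h1 : (m3_chunk S z j).image (m3_rk S) = Ico (j * z) ((j + 1) * z) := by
    ext x
    rw [mem_image, mem_Ico]
    constructor
    · rintro ⟨r, hr, rfl⟩
      unfold m3_chunk at hr
      exact (mem_filter.1 hr).2
    · intro hx
      have h2 : x ∈ S.image (m3_rk S) := by
        rw [m3_rk_image, mem_range]
        omega
      obtain ⟨r, hr, rfl⟩ := mem_image.1 h2
      exact ⟨r, mem_filter.2 ⟨hr, hx⟩, rfl⟩
  have h2 : (m3_chunk S z j).card = ((m3_chunk S z j).image (m3_rk S)).card := by
    rw [card_image_of_injOn]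
    exact (m3_rk_injOn S).mono (m3_chunk_subset S z j)
  rw [h2, h1, Nat.card_Ico]
  have : (j + 1) * z = j * z + z := by ring
  omega

/-- Let `W` have `M z` elements, let `G` be at least half of `W`, and let `τ` take at most `T0`
values on `G`.  Cut each class of `G` in increasing order into chunks of size `z` and take all
groups of `q` consecutive chunks of one class. -/
theorem select (W G : Finset ℕ) (z M q T0 : ℕ) (hz : 0 < z) (hW : W.card = M * z) (hGW : G ⊆ W)
    (hG2 : W.card ≤ 2 * G.card) {T : Type} [DecidableEq T] (τ : ℕ → T)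
    (hT : (G.image τ).card ≤ T0) (hq : 0 < q) (hM : 4 * q * T0 ≤ M) (hM0 : 0 < M) :
    ∃ (m : ℕ) (U : Fin m → Fin q → Finset ℕ), M ≤ 4 * m ∧ 0 < m ∧
      (∀ i y, U i y ⊆ G) ∧ (∀ i y, (U i y).card = z) ∧
      (∀ i y y', y < y' → ∀ r ∈ U i y, ∀ r' ∈ U i y', r < r') ∧
      (∀ i y y', ∀ r ∈ U i y, ∀ r' ∈ U i y', τ r = τ r') ∧
      (∀ y i i', i ≠ i' → Disjoint (U i y) (U i' y)) := by
  classical
  set C : T → Finset ℕ := fun t => G.filter fun r => τ r = t with hC
  set I : Type := (t : {t // t ∈ G.image τ}) × Fin ((C t.1).card / z + 1 - q) with hI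
  set m := Fintype.card I with hm
  let e : Fin m ≃ I := (Fintype.equivFin I).symm
  let U : Fin m → Fin q → Finset ℕ := fun i y => m3_chunk (C (e i).1.1) z ((e i).2 + y)
  have hfit : ∀ (i : Fin m) (y : Fin q), (((e i).2 : ℕ) + y + 1) * z ≤ (C (e i).1.1).card := by
    intro i y
    have h1 := (e i).2.2
    have h2 := y.2
    have h3 : ((e i).2 : ℕ) + y + 1 ≤ (C (e i).1.1).card / z := by omega
    exact (Nat.mul_le_mul_right z h3).trans (Nat.div_mul_le_self _ _)
  -- the number of windows
  have hmcard : m = ∑ t ∈ G.image τ, ((C t).card / z + 1 - q) := by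
    rw [hm]
    refine (Fintype.card_sigma (α := fun t : {t // t ∈ G.image τ} =>
      Fin ((C t.1).card / z + 1 - q))).trans ?_
    simp only [Fintype.card_fin]
    exact (Finset.sum_coe_sort (G.image τ) fun t => (C t).card / z + 1 - q)
  have hGcard : G.card = ∑ t ∈ G.image τ, (C t).card := card_eq_sum_card_image τ G
  have hle : G.card ≤ z * m + z * q * T0 := by
    have h1 : G.card ≤ ∑ t ∈ G.image τ, (z * ((C t).card / z + 1 - q) + z * q) := by
      rw [hGcard]
      refine sum_le_sum fun t _ => ?_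
      have h2 : (C t).card < z * ((C t).card / z + 1) := by
        have h3 := Nat.div_add_mod (C t).card z
        have h4 := Nat.mod_lt (C t).card hz
        rw [mul_add, mul_one]
        omega
      have h3 : z * ((C t).card / z + 1) ≤ z * ((C t).card / z + 1 - q) + z * q := by
        rw [← mul_add]
        exact Nat.mul_le_mul_left _ (by omega)
      omega
    rw [sum_add_distrib, ← mul_sum, ← hmcard, sum_const, smul_eq_mul] at h1
    have h2 : (G.image τ).card * (z * q) ≤ z * q * T0 := by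
      rw [mul_comm]
      exact Nat.mul_le_mul_left _ hT
    omega
  have hM4 : M ≤ 4 * m := by
    have h1 : M * z ≤ 2 * (z * m + z * q * T0) := by
      rw [← hW]
      exact hG2.trans (Nat.mul_le_mul_left _ hle)
    have h2 : z * M ≤ z * (2 * m + 2 * (q * T0)) := by
      calc z * M = M * z := by ring
        _ ≤ 2 * (z * m + z * q * T0) := h1
        _ = z * (2 * m + 2 * (q * T0)) := by ring
    have h3 := Nat.le_of_mul_le_mul_left h2 hz
    have h4 : 4 * q * T0 = 4 * (q * T0) := by ring
    omega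
  refine ⟨m, U, hM4, by omega, ?_, ?_, ?_, ?_, ?_⟩
  · intro i y
    exact (m3_chunk_subset _ _ _).trans (filter_subset _ _)
  · intro i y
    exact m3_chunk_card (hfit i y)
  · intro i y y' hy r hr r' hr'
    exact m3_chunk_lt (Nat.add_lt_add_left hy _) hr hr'
  · intro i y y' r hr r' hr'
    have h1 := mem_filter.1 (m3_chunk_subset _ _ _ hr)
    have h2 := mem_filter.1 (m3_chunk_subset _ _ _ hr')
    rw [h1.2, h2.2]
  · intro y i i' hii
    by_cases ht : (e i).1 = (e i').1
    · have hne : ((e i).2 : ℕ) ≠ (e i').2 := by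
        intro h
        apply hii
        apply e.injective
        apply Sigma.ext ht
        exact (Fin.heq_ext_iff (by rw [ht])).2 h
      exact m3_chunk_disjoint' (by rw [ht]) (by omega)
    · rw [Finset.disjoint_left]
      intro r hr hr'
      have h1 := mem_filter.1 (m3_chunk_subset _ _ _ hr)
      have h2 := mem_filter.1 (m3_chunk_subset _ _ _ hr')
      exact ht (Subtype.ext (h1.2.symm.trans h2.2))

/-- cutting a finite set into `M` consecutive blocks of size `z` -/
theorem blocks (W : Finset ℕ) (z M : ℕ) (hW : W.card = M * z) :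
    ∃ V : Fin M → Finset ℕ, (∀ j, (V j).card = z) ∧ (∀ j, V j ⊆ W) ∧
      (∀ j j', j < j' → ∀ c ∈ V j, ∀ c' ∈ V j', c < c') ∧ Finset.univ.biUnion V = W := by
  refine ⟨fun j => m3_chunk W z j, ?_, ?_, ?_, ?_⟩
  · intro j
    apply m3_chunk_card
    rw [hW]
    exact Nat.mul_le_mul_right z j.2
  · intro j
    exact m3_chunk_subset _ _ _
  · intro j j' h c hc c' hc'
    exact m3_chunk_lt h hc hc'
  · ext r
    rw [mem_biUnion]
    constructor
    · rintro ⟨j, _, hr⟩
      exact m3_chunk_subset _ _ _ hr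
    · intro hr
      have h1 := m3_rk_lt_card hr
      rw [hW] at h1
      have hz : 0 < z := by
        rcases Nat.eq_zero_or_pos z with h0 | h0
        · rw [h0, mul_zero] at h1
          omega
        · exact h0
      have h2 : m3_rk W r / z < M := Nat.div_lt_of_lt_mul (by rwa [mul_comm] at h1)
      refine ⟨⟨_, h2⟩, mem_univ _, mem_filter.2 ⟨hr, ?_, ?_⟩⟩
      · exact Nat.div_mul_le_self _ _
      · have h3 := Nat.div_add_mod (m3_rk W r) z
        have h4 := Nat.mod_lt (m3_rk W r) hz
        show m3_rk W r < (m3_rk W r / z + 1) * z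
        rw [add_mul, one_mul, mul_comm]
        omega

end Pool.Agent.Helper96.OR
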