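import Mathlib

/-! M4: counting functions of small support. -/

namespace Pool.Agent.Helper96.OR

open Finset

/-- at most `(|I| L + 1)^k` functions `I → ℕ` with values at most `L` and at most `k` nonzero values -/
theorem types_card {I : Type} [Fintype I] [DecidableEq I] (k L : ℕ) (F : Finset (I → ℕ))
    (h1 : ∀ f ∈ F, (Finset.univ.filter fun i => f i ≠ 0).card ≤ k)
    (h2 : ∀ f ∈ F, ∀ i, f i ≤ L) : F.card ≤ (Fintype.card I * L + 1) ^ k := by
  classical
  have key : ∀ f : {f // f ∈ F}, ∃ g : Fin k → Option (I × Fin L), ∀ i (v : ℕ),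
      (∃ j, ∃ w : Fin L, g j = some (i, w) ∧ (w : ℕ) = v) ↔ f.1 i = v + 1 := by
    rintro ⟨f, hf⟩
    set S := Finset.univ.filter fun i => f i ≠ 0 with hS
    have hSk : S.card ≤ k := h1 f hf
    have hmem : ∀ i, i ∈ S ↔ f i ≠ 0 := fun i => by simp [hS]
    have hlt : ∀ i : S, f i.1 - 1 < L := by
      intro i
      have h3 := (hmem i.1).1 i.2
      have h4 := h2 f hf i.1
      omega
    refine ⟨fun j => if h : (j : ℕ) < S.card then
      some ((S.equivFin.symm ⟨j, h⟩).1, ⟨f (S.equivFin.symm ⟨j, h⟩).1 - 1, hlt _⟩) else none, ?_⟩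
    intro i v
    constructor
    · rintro ⟨j, w, hj, hw⟩
      by_cases h : (j : ℕ) < S.card
      · simp only [h, dite_true, Option.some.injEq, Prod.mk.injEq] at hj
        obtain ⟨h3, h4⟩ := hj
        have h5 := (hmem _).1 (S.equivFin.symm ⟨j, h⟩).2
        have h6 : f (S.equivFin.symm ⟨j, h⟩).1 - 1 = v := by
          rw [← hw, ← h4]
        rw [h3] at h5 h6
        show f i = v + 1
        omega
      · simp [h] at hj
    · intro h
      have h3 : f i = v + 1 := h
      have hi : i ∈ S := (hmem i).2 (by omega)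
      have hj : ((S.equivFin ⟨i, hi⟩ : Fin S.card) : ℕ) < S.card := (S.equivFin ⟨i, hi⟩).2
      have hvL : v < L := by
        have := h2 f hf i
        omega
      refine ⟨⟨(S.equivFin ⟨i, hi⟩ : ℕ), by omega⟩, ⟨v, hvL⟩, ?_, rfl⟩
      simp only [hj, dite_true, Fin.eta, Equiv.symm_apply_apply, Option.some.injEq,
        Prod.mk.injEq, Fin.mk.injEq, true_and]
      omega
  choose g hg using key
  have hinj : Function.Injective g := by
    intro f f' hff
    apply Subtype.ext
    funext i
    have h3 : ∀ v, f.1 i = v + 1 ↔ f'.1 i = v + 1 := by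
      intro v
      rw [← hg f i v, ← hg f' i v, hff]
    rcases Nat.eq_zero_or_pos (f.1 i) with h4 | h4
    · rcases Nat.eq_zero_or_pos (f'.1 i) with h5 | h5
      · rw [h4, h5]
      · have := (h3 (f'.1 i - 1)).2 (by omega)
        omega
    · have := (h3 (f.1 i - 1)).1 (by omega)
      omega
  calc F.card = Fintype.card {f // f ∈ F} := (Fintype.card_coe F).symm
    _ ≤ Fintype.card (Fin k → Option (I × Fin L)) := Fintype.card_le_of_injective g hinj
    _ = (Fintype.card I * L + 1) ^ k := by simp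

/-- the version used: functions on a large type `A × Fin M` that vanish outside `N × Fin M` -/
theorem types_card' {A : Type} [DecidableEq A] (N : Finset A) (M k L : ℕ)
    (F : Finset (A → Fin M → ℕ)) (h0 : ∀ f ∈ F, ∀ a, a ∉ N → ∀ j, f a j = 0)
    (h1 : ∀ f ∈ F, ((N ×ˢ (Finset.univ : Finset (Fin M))).filter fun i => f i.1 i.2 ≠ 0).card ≤ k)
    (h2 : ∀ f ∈ F, ∀ a j, f a j ≤ L) : F.card ≤ (N.card * M * L + 1) ^ k := by
  classical
  set r : (A → Fin M → ℕ) → ({a // a ∈ N} × Fin M → ℕ) := fun f x => f x.1.1 x.2 with hr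
  have hinj : Set.InjOn r F := by
    intro f hf f' hf' hff
    funext a j
    by_cases ha : a ∈ N
    · exact congrFun hff (⟨a, ha⟩, j)
    · rw [h0 f hf a ha j, h0 f' hf' a ha j]
  rw [← card_image_of_injOn hinj]
  have h3 := types_card (I := {a // a ∈ N} × Fin M) k L (F.image r) (by
    intro f hf
    obtain ⟨f', hf', rfl⟩ := mem_image.1 hf
    refine le_trans ?_ (h1 f' hf')
    apply card_le_card_of_injOn (fun x : {a // a ∈ N} × Fin M => ((x.1.1, x.2) : A × Fin M))
    · intro x hx
      rw [mem_coe, mem_filter] at hx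
      rw [mem_coe, mem_filter]
      exact ⟨mem_product.2 ⟨x.1.2, mem_univ _⟩, hx.2⟩
    · intro x _ y _ hxy
      simp only [Prod.mk.injEq] at hxy
      exact Prod.ext (Subtype.ext hxy.1) hxy.2) (by
    intro f hf x
    obtain ⟨f', hf', rfl⟩ := mem_image.1 hf
    exact h2 f' hf' _ _)
  simpa using h3

end Pool.Agent.Helper96.OR
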