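import Mathlib
import Pool.Agent.Helper96.OR.Basics
import Pool.Agent.Helper96.OR.M3
import Pool.Agent.Helper96.OR.M4

/-! The options of one row window. -/

namespace Pool.Agent.Helper96.OR

open Finset

variable {b : ℕ → ℕ → ℝ}

theorem good_half (f : ℕ → ℝ) (hf : ∀ r, 0 ≤ f r) (W : Finset ℕ) {K : ℝ} (hK : 0 < K)
    (hs : ∑ r ∈ W, f r ≤ W.card * K) : W.card ≤ 2 * (W.filter fun r => f r ≤ 2 * K).card := by
  have h1 : ((W.filter fun r => ¬ f r ≤ 2 * K).card : ℝ) * (2 * K) ≤ ∑ r ∈ W, f r := by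
    calc ((W.filter fun r => ¬ f r ≤ 2 * K).card : ℝ) * (2 * K)
        = ∑ _r ∈ W.filter (fun r => ¬ f r ≤ 2 * K), 2 * K := by
          rw [sum_const, nsmul_eq_mul]
      _ ≤ ∑ r ∈ W.filter (fun r => ¬ f r ≤ 2 * K), f r :=
          sum_le_sum fun r hr => le_of_lt (not_le.1 (mem_filter.1 hr).2)
      _ ≤ ∑ r ∈ W, f r := sum_le_sum_of_subset_of_nonneg (filter_subset _ _) fun r _ _ => hf r
  have h2 : ((W.filter fun r => ¬ f r ≤ 2 * K).card : ℝ) * 2 ≤ W.card := by
    have : ((W.filter fun r => ¬ f r ≤ 2 * K).card : ℝ) * 2 * K ≤ W.card * K := by linarith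
    exact le_of_mul_le_mul_right this hK
  have h3 := card_filter_add_card_filter_not (s := W) fun r => f r ≤ 2 * K
  have h4 : (W.filter fun r => ¬ f r ≤ 2 * K).card * 2 ≤ W.card := by exact_mod_cast h2
  omega

theorem row_vertex {A : Type} [Fintype A] [DecidableEq A] (w : A → ℝ) (hw : ∀ c, 0 ≤ w c)
    (Dg : ℕ) (hDg : (univ.filter fun c => w c ≠ 0).card ≤ Dg) (hb : ∀ r c, 0 ≤ b r c)
    (q s L T M z z' : ℕ) (hq : 0 < q) (hs : 7 ≤ s) (hL : 8 * q * s < 2 ^ L)
    (hT : T = (Dg * (4 * q) * L + 1) ^ (8 * q * s)) (hM : M = 4 * q * T) (hz : 0 < z)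
    (hz' : 0 < z') (W : Finset ℕ) (hW : W.card = M * z) (W' : A → Finset ℕ)
    (V : A → Fin (4 * q) → Finset ℕ) (hV : ∀ c j, (V c j).card = z')
    (hVd : ∀ c j j', j ≠ j' → Disjoint (V c j) (V c j')) (hVu : ∀ c, univ.biUnion (V c) = W' c)
    (K : ℝ) (hK : 0 < K) (hrow : ∑ c, w c * dens b W (W' c) ≤ K) :
    ∃ (m : ℕ) (U : Fin m → Fin q → Finset ℕ) (lev : Fin m → A → Fin (4 * q) → ℕ), 0 < m ∧
      (∀ i y, U i y ⊆ W) ∧ (∀ i y, (U i y).card = z) ∧
      (∀ i y y', y < y' → ∀ r ∈ U i y, ∀ r' ∈ U i y', r < r') ∧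
      (∀ i y, ∑ c, w c * dens b (U i y) (W' c) ≤ 2 * K) ∧
      (∀ i c j y, w c * dens b (U i y) (V c j) ≤ 2 ^ (lev i c j) * (K / s)) ∧
      (∀ i c, ∑ j, (if lev i c j = 0 then 0 else 2 ^ (lev i c j) * (K / s)) ≤ (4 * q) * (4 * K)) ∧
      (∀ c, (∑ i, ∑ j, (if lev i c j = 0 then 0 else 2 ^ (lev i c j) * (K / s))) / m ≤
        (4 * q) * (8 * (w c * dens b W (W' c)))) ∧
      (∀ y c j, (∑ i, w c * dens b (U i y) (V c j)) / m ≤ 4 * (w c * dens b W (V c j))) ∧
      (∀ i c j, w c = 0 → lev i c j = 0) := by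
  classical
  have hs0 : (0 : ℝ) < s := by exact_mod_cast (by omega : 0 < s)
  set t : ℝ := K / s with ht
  have ht0 : 0 < t := div_pos hK hs0
  have hq4 : 0 < 4 * q := by omega
  set f : ℕ → ℝ := fun r => ∑ c, w c * dens b {r} (W' c) with hf
  have hf0 : ∀ r, 0 ≤ f r := fun r => sum_nonneg fun c _ => mul_nonneg (hw c) (dens_nonneg hb _ _)
  set G := W.filter fun r => f r ≤ 2 * K with hG
  have hsum : ∑ r ∈ W, f r ≤ W.card * K := by
    have : ∑ r ∈ W, f r = W.card * ∑ c, w c * dens b W (W' c) := by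
      rw [hf]
      simp only
      rw [sum_comm, mul_sum]
      refine sum_congr rfl fun c _ => ?_
      rw [← mul_sum, ← card_mul_dens]
      ring
    rw [this]
    gcongr
  have hG2 := good_half f hf0 W hK hsum
  rw [← hG] at hG2
  set g : ℕ → A → Fin (4 * q) → ℝ := fun r c j => w c * dens b {r} (V c j) with hg
  have hg0 : ∀ r c j, 0 ≤ g r c j := fun r c j => mul_nonneg (hw c) (dens_nonneg hb _ _)
  have hgW : ∀ r c, ∑ j, g r c j = (4 * q : ℕ) * (w c * dens b {r} (W' c)) := by
    intro r c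
    have := dens_blocks (b := b) hz' hq4 {r} (W' c) (V c) (hV c) (hVd c) (hVu c)
    simp only [hg]
    rw [← mul_sum, ← this]
    ring
  have hgsum : ∀ r, ∑ c, ∑ j, g r c j = (4 * q : ℕ) * f r := by
    intro r
    rw [hf]
    simp only
    rw [mul_sum]
    exact sum_congr rfl fun c _ => hgW r c
  have hgle : ∀ r ∈ G, ∀ c j, g r c j ≤ (4 * q : ℕ) * (2 * K) := by
    intro r hr c j
    have h1 : g r c j ≤ ∑ j, g r c j := single_le_sum (fun j _ => hg0 r c j) (mem_univ j)
    have h2 : ∑ j, g r c j ≤ ∑ c, ∑ j, g r c j :=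
      single_le_sum (f := fun c => ∑ j, g r c j) (fun c _ => sum_nonneg fun j _ => hg0 r c j)
        (mem_univ c)
    rw [hgsum] at h2
    have h3 := (mem_filter.1 hr).2
    have : ((4 * q : ℕ) : ℝ) * f r ≤ (4 * q : ℕ) * (2 * K) := by gcongr
    linarith
  have hlt : ∀ r ∈ G, ∀ c j, g r c j < 2 ^ L * t := by
    intro r hr c j
    refine (hgle r hr c j).trans_lt ?_
    have h1 : ((8 * q * s : ℕ) : ℝ) < 2 ^ L := by exact_mod_cast hL
    push_cast at h1 ⊢
    rw [ht, mul_div_assoc', lt_div_iff₀ hs0]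
    have := mul_lt_mul_of_pos_right h1 hK
    nlinarith
  set τ : ℕ → A → Fin (4 * q) → ℕ := fun r c j => levf L t (g r c j) with hτ
  set N : Finset A := univ.filter fun c => w c ≠ 0 with hN
  have hTc : (G.image τ).card ≤ T := by
    have h := types_card' N (4 * q) (8 * q * s) L (G.image τ) ?_ ?_ ?_
    · refine h.trans ?_
      rw [hT]
      gcongr
    · intro φ hφ c hc j
      obtain ⟨r, hr, rfl⟩ := mem_image.1 hφ
      have : w c = 0 := by
        by_contra h
        exact hc (mem_filter.2 ⟨mem_univ _, h⟩)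
      simp only [hτ, hg, this, zero_mul]
      exact levf_zero L ht0
    · intro φ hφ
      obtain ⟨r, hr, rfl⟩ := mem_image.1 hφ
      set F := (N ×ˢ (univ : Finset (Fin (4 * q)))).filter fun i => τ r i.1 i.2 ≠ 0 with hF
      have h1 : (F.card : ℝ) * t ≤ (4 * q : ℕ) * (2 * K) := by
        calc (F.card : ℝ) * t = ∑ _i ∈ F, t := by rw [sum_const, nsmul_eq_mul]
          _ ≤ ∑ i ∈ F, g r i.1 i.2 := by
              refine sum_le_sum fun i hi => ?_
              have h2 := (mem_filter.1 hi).2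
              have h3 := levf_le_two ht0 h2
              have h4 : (2 : ℝ) ≤ 2 ^ (levf L t (g r i.1 i.2)) := by
                have : (2 : ℝ) ^ 1 ≤ 2 ^ (levf L t (g r i.1 i.2)) :=
                  pow_le_pow_right₀ (by norm_num) (Nat.one_le_iff_ne_zero.2 h2)
                simpa using this
              nlinarith
          _ ≤ ∑ i ∈ (univ : Finset A) ×ˢ (univ : Finset (Fin (4 * q))), g r i.1 i.2 :=
              sum_le_sum_of_subset_of_nonneg (fun i _ => by simp) fun i _ _ => hg0 _ _ _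
          _ = ∑ c, ∑ j, g r c j := by rw [sum_product]
          _ = (4 * q : ℕ) * f r := hgsum r
          _ ≤ _ := by
              have := (mem_filter.1 hr).2
              gcongr
      have h2 : (F.card : ℝ) ≤ ((8 * q * s : ℕ) : ℝ) := by
        rw [ht] at h1
        rw [mul_div_assoc', div_le_iff₀ hs0] at h1
        push_cast at h1 ⊢
        have : (F.card : ℝ) * K ≤ (8 * q * s) * K := by nlinarith
        exact le_of_mul_le_mul_right this hK
      exact_mod_cast h2
    · intro φ hφ c j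
      obtain ⟨r, hr, rfl⟩ := mem_image.1 hφ
      exact levf_le _ _ _
  have hM4 : 4 * q * T ≤ M := hM.ge
  have hT0 : 0 < T := by rw [hT]; positivity
  have hM0 : 0 < M := by rw [hM]; positivity
  obtain ⟨m, U, hMm, hm0, hUG, hUc, hUo, hUτ, hUd⟩ :=
    select W G z M q T hz hW (filter_subset _ _) hG2 τ hTc hq hM4 hM0
  have hm0' : (0 : ℝ) < m := by exact_mod_cast hm0
  have hne : ∀ i y, (U i y).Nonempty := fun i y => by
    rw [← card_pos, hUc]; exact hz
  have hUW : ∀ i y, U i y ⊆ W := fun i y => (hUG i y).trans (filter_subset _ _)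
  let y0 : Fin q := ⟨0, hq⟩
  let r0 : Fin m → ℕ := fun i => (hne i y0).choose
  have hr0 : ∀ i, r0 i ∈ U i y0 := fun i => (hne i y0).choose_spec
  let lev : Fin m → A → Fin (4 * q) → ℕ := fun i => τ (r0 i)
  have hlev : ∀ i y, ∀ r ∈ U i y, ∀ c j, levf L t (g r c j) = lev i c j := by
    intro i y r hr c j
    have := hUτ i y y0 r hr (r0 i) (hr0 i)
    exact congrFun (congrFun this c) j
  have hheavy : ∀ i y c, ∑ j, (if lev i c j = 0 then (0 : ℝ) else 2 ^ (lev i c j) * t) ≤
      (4 * q : ℕ) * (2 * (w c * dens b (U i y) (W' c))) := by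
    intro i y c
    have hpt : ∀ r ∈ U i y, ∑ j, (if lev i c j = 0 then (0 : ℝ) else 2 ^ (lev i c j) * t) ≤
        (4 * q : ℕ) * (2 * (w c * dens b {r} (W' c))) := by
      intro r hr
      have h1 : ∀ j, (if lev i c j = 0 then (0 : ℝ) else 2 ^ (lev i c j) * t) ≤ 2 * g r c j := by
        intro j
        split_ifs with h
        · linarith [hg0 r c j]
        · rw [← hlev i y r hr c j] at h ⊢
          exact levf_le_two ht0 h
      calc _ ≤ ∑ j, 2 * g r c j := sum_le_sum fun j _ => h1 j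
        _ = 2 * ∑ j, g r c j := by rw [mul_sum]
        _ = _ := by rw [hgW]; ring
    rcases (hw c).eq_or_lt with h0 | h0
    · obtain ⟨r, hr⟩ := hne i y
      have := hpt r hr
      rw [← h0] at this ⊢
      simpa using this
    · have hX : (0 : ℝ) < (4 * q : ℕ) * (2 * w c) := by
        have : (0 : ℝ) < (4 * q : ℕ) := by exact_mod_cast hq4
        positivity
      have h2 : (∑ j, (if lev i c j = 0 then (0 : ℝ) else 2 ^ (lev i c j) * t)) /
          ((4 * q : ℕ) * (2 * w c)) ≤ dens b (U i y) (W' c) := by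
        refine le_dens_of_rows (hne i y) fun r hr => ?_
        rw [div_le_iff₀ hX]
        have := hpt r hr
        linarith
      rw [div_le_iff₀ hX] at h2
      linarith
  have hown : ∀ i y, ∑ c, w c * dens b (U i y) (W' c) ≤ 2 * K := by
    intro i y
    have hc : (0 : ℝ) < (U i y).card := by exact_mod_cast (hne i y).card_pos
    have : ((U i y).card : ℝ) * ∑ c, w c * dens b (U i y) (W' c) = ∑ r ∈ U i y, f r := by
      rw [hf]
      simp only
      rw [sum_comm, mul_sum]
      refine sum_congr rfl fun c _ => ?_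
      rw [← mul_sum, ← card_mul_dens]
      ring
    have h2 : ∑ r ∈ U i y, f r ≤ (U i y).card * (2 * K) := by
      calc _ ≤ ∑ _r ∈ U i y, 2 * K := sum_le_sum fun r hr => (mem_filter.1 (hUG i y hr)).2
        _ = _ := by rw [sum_const, nsmul_eq_mul]
    rw [← this] at h2
    exact le_of_mul_le_mul_left h2 hc
  have hlight : ∀ i c j y, w c * dens b (U i y) (V c j) ≤ 2 ^ (lev i c j) * t := by
    intro i c j y
    have hpos : (0 : ℝ) ≤ 2 ^ (lev i c j) * t := by positivity
    rcases (hw c).eq_or_lt with h0 | h0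
    · rw [← h0]; simpa using hpos
    · have : dens b (U i y) (V c j) ≤ (2 ^ (lev i c j) * t) / w c := by
        refine dens_le_of_rows (by positivity) fun r hr => ?_
        rw [le_div_iff₀ h0]
        have h1 := lt_levf ht0 (hlt r (hUG i y hr) c j)
        rw [hlev i y r hr c j] at h1
        have : g r c j = w c * dens b {r} (V c j) := rfl
        linarith [mul_comm (w c) (dens b {r} (V c j))]
      rw [le_div_iff₀ h0] at this
      linarith
  refine ⟨m, U, lev, hm0, hUW, hUc, hUo, hown, hlight, ?_, ?_, ?_, ?_⟩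
  · intro i c
    refine (hheavy i y0 c).trans ?_
    have h1 : w c * dens b (U i y0) (W' c) ≤ ∑ c, w c * dens b (U i y0) (W' c) :=
      single_le_sum (f := fun c => w c * dens b (U i y0) (W' c))
        (fun c _ => mul_nonneg (hw c) (dens_nonneg hb _ _)) (mem_univ c)
    have h2 := hown i y0
    push_cast
    have h3 : w c * dens b (U i y0) (W' c) ≤ 2 * K := by linarith
    have h4 : (0 : ℝ) ≤ 4 * q := by positivity
    nlinarith
  · intro c
    have h1 := avg_select (b := b) hz hm0 hMm W (W' c) hW (fun i => U i y0) (fun i => hUW i y0)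
      (fun i => hUc i y0) (fun i i' h => hUd y0 i i' h) hb
    rw [div_le_iff₀ hm0'] at h1 ⊢
    calc _ ≤ ∑ i, (4 * q : ℕ) * (2 * (w c * dens b (U i y0) (W' c))) :=
          sum_le_sum fun i _ => hheavy i y0 c
      _ = ((4 * q : ℕ) * (2 * w c)) * ∑ i, dens b (U i y0) (W' c) := by
          rw [mul_sum]; exact sum_congr rfl fun i _ => by ring
      _ ≤ ((4 * q : ℕ) * (2 * w c)) * (4 * dens b W (W' c) * m) := by
          have := hw c
          gcongr
      _ = _ := by push_cast; ring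
  · intro y c j
    have h1 := avg_select (b := b) hz hm0 hMm W (V c j) hW (fun i => U i y) (fun i => hUW i y)
      (fun i => hUc i y) (fun i i' h => hUd y i i' h) hb
    rw [div_le_iff₀ hm0'] at h1 ⊢
    rw [← mul_sum]
    have := mul_le_mul_of_nonneg_left h1 (hw c)
    linarith
  · intro i c j h
    simp only [lev, hτ, hg, h, zero_mul]
    exact levf_zero L ht0

end Pool.Agent.Helper96.OR
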