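import Mathlib
import Pool.Agent.Helper96.OR.RowVertex
import Pool.Agent.Helper96.OR.M1
import Pool.Agent.Helper96.OR.M2

/-! Refining all row windows. -/

namespace Pool.Agent.Helper96.OR

open Finset

variable {b : ℕ → ℕ → ℝ}

/-- counting centres at distance two -/
theorem near_card {A : Type} [Fintype A] [DecidableEq A] (wt : A → A → ℝ)
    (hsym : ∀ a c, wt a c = wt c a) (Dg : ℕ)
    (hDg : ∀ a, (univ.filter fun c => wt a c ≠ 0).card ≤ Dg) (c : A) :
    ((univ.filter fun a => wt a c ≠ 0).biUnion fun a => univ.filter fun c' => wt a c' ≠ 0).card ≤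
      Dg ^ 2 := by
  have h1 : (univ.filter fun a => wt a c ≠ 0).card ≤ Dg := by
    have := hDg c
    simpa only [hsym c] using this
  calc _ ≤ ∑ a ∈ univ.filter (fun a => wt a c ≠ 0), (univ.filter fun c' => wt a c' ≠ 0).card :=
        card_biUnion_le
    _ ≤ ∑ _a ∈ univ.filter (fun a => wt a c ≠ 0), Dg := sum_le_sum fun a _ => hDg a
    _ ≤ Dg * Dg := by
        rw [sum_const, smul_eq_mul]
        exact Nat.mul_le_mul_right _ h1
    _ = Dg ^ 2 := (sq _).symm

theorem row_step {A : Type} [Fintype A] [DecidableEq A] (wt : A → A → ℝ)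
    (hwt : ∀ a c, 0 ≤ wt a c) (hsym : ∀ a c, wt a c = wt c a)
    (Dg : ℕ) (hDg : ∀ a, (univ.filter fun c => wt a c ≠ 0).card ≤ Dg) (hb : ∀ r c, 0 ≤ b r c)
    (q s L T M z z' : ℕ) (hq : 0 < q) (hs : 7 ≤ s) (hL : 8 * q * s < 2 ^ L)
    (hT : T = (Dg * (4 * q) * L + 1) ^ (8 * q * s)) (hM : M = 4 * q * T) (hz : 0 < z)
    (hz' : 0 < z') (hs2 : Real.exp (-(s : ℝ)) * ((Dg : ℝ) ^ 2 * (1 + q * (4 * q)) + 1) ≤ 1 / 4)
    (W : A → Finset ℕ) (hW : ∀ a, (W a).card = M * z) (W' : A → Finset ℕ)
    (V : A → Fin (4 * q) → Finset ℕ) (hV : ∀ c j, (V c j).card = z')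
    (hVd : ∀ c j j', j ≠ j' → Disjoint (V c j) (V c j')) (hVu : ∀ c, univ.biUnion (V c) = W' c)
    (K : ℝ) (hK : 0 < K) (hrow : ∀ a, ∑ c, wt a c * dens b (W a) (W' c) ≤ K)
    (hcol : ∀ c, ∑ a, wt a c * dens b (W a) (W' c) ≤ K) :
    ∃ (U : A → Fin q → Finset ℕ) (lev : A → A → Fin (4 * q) → ℕ),
      (∀ a y, U a y ⊆ W a) ∧ (∀ a y, (U a y).card = z) ∧
      (∀ a y y', y < y' → ∀ r ∈ U a y, ∀ r' ∈ U a y', r < r') ∧
      (∀ a y, ∑ c, wt a c * dens b (U a y) (W' c) ≤ 2 * K) ∧
      (∀ a c j y, wt a c * dens b (U a y) (V c j) ≤ 2 ^ (lev a c j) * (K / s)) ∧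
      (∀ c, ∑ a, ∑ j, (if lev a c j = 0 then 0 else 2 ^ (lev a c j) * (K / s)) ≤
        (4 * q) * ((16 + 4 * s) * K)) ∧
      (∀ c y j, ∑ a, (if lev a c j = 0 then wt a c * dens b (U a y) (V c j) else 0) ≤
        8 * (∑ a, wt a c * dens b (W a) (V c j)) + K) := by
  classical
  have hs0 : (0 : ℝ) < s := by exact_mod_cast (by omega : 0 < s)
  have hq0 : (0 : ℝ) < q := by exact_mod_cast hq
  have hrv := fun a => row_vertex (b := b) (wt a) (hwt a) Dg (hDg a) hb q s L T M z z' hq hs hL hT
    hM hz hz' (W a) (hW a) W' V hV hVd hVu K hK (hrow a)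
  choose m U lev hm0 hUW hUc hUo hown hlight hheavy hheavym hlightm hlev0 using hrv
  have hne : ∀ a, Nonempty (Fin (m a)) := fun a => ⟨⟨0, hm0 a⟩⟩
  let H : A → ∀ a, Fin (m a) → ℝ := fun c a i =>
    ∑ j, (if lev a i c j = 0 then 0 else 2 ^ (lev a i c j) * (K / s))
  let X : A × Fin q × Fin (4 * q) → ∀ a, Fin (m a) → ℝ := fun p a i =>
    if lev a i p.1 p.2.2 = 0 then wt a p.1 * dens b (U a i p.2.1) (V p.1 p.2.2) else 0
  let f : A → Fin (4 * q) → ℝ := fun c j => ∑ a, wt a c * dens b (W a) (V c j)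
  have hKs : 0 < K / s := div_pos hK hs0
  have hH0 : ∀ c a i, 0 ≤ H c a i := fun c a i => sum_nonneg fun j _ => by
    split_ifs
    · exact le_rfl
    · positivity
  have hX0 : ∀ p a i, 0 ≤ X p a i := fun p a i => by
    simp only [X]
    split_ifs
    · exact mul_nonneg (hwt _ _) (dens_nonneg hb _ _)
    · exact le_rfl
  have hX1 : ∀ p a i, X p a i ≤ K / s := fun p a i => by
    simp only [X]
    split_ifs with h
    · have := hlight a i p.1 p.2.2 p.2.1
      rw [h, pow_zero, one_mul] at this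
      exact this
    · exact hKs.le
  let E : A ⊕ (A × Fin q × Fin (4 * q)) → Set (∀ a, Fin (m a)) := fun i => match i with
    | Sum.inl c => {ω | 2 * ((4 * q) * (8 * K)) + s * ((4 * q) * (4 * K)) < ∑ a, H c a (ω a)}
    | Sum.inr p => {ω | 2 * (4 * f p.1 p.2.2) + s * (K / s) < ∑ a, X p a (ω a)}
  let ctr : A ⊕ (A × Fin q × Fin (4 * q)) → A := fun i => match i with
    | Sum.inl c => c
    | Sum.inr p => p.1
  let S : A ⊕ (A × Fin q × Fin (4 * q)) → Finset A := fun i =>
    univ.filter fun a => wt a (ctr i) ≠ 0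
  obtain ⟨ω, hω⟩ := lll_prod (fun a => Fin (m a)) E S (by
      intro i ω ω' h
      rcases i with c | p
      · have : ∀ a, H c a (ω a) = H c a (ω' a) := by
          intro a
          by_cases h0 : wt a c = 0
          · simp only [H]
            refine sum_congr rfl fun j _ => ?_
            rw [hlev0 a (ω a) c j h0, hlev0 a (ω' a) c j h0]
          · rw [h a (mem_filter.2 ⟨mem_univ _, h0⟩)]
        simp only [E, Set.mem_ofPred_eq, this]
      · have : ∀ a, X p a (ω a) = X p a (ω' a) := by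
          intro a
          by_cases h0 : wt a p.1 = 0
          · simp only [X, h0, zero_mul, ite_self]
          · rw [h a (mem_filter.2 ⟨mem_univ _, h0⟩)]
        simp only [E, Set.mem_ofPred_eq, this])
    (Real.exp (-(s : ℝ))) (by
      intro i
      rcases i with c | p
      · refine tail (fun a => Fin (m a)) (H c) ((4 * q) * (4 * K)) s ((4 * q) * (8 * K)) (by positivity) (hH0 c)
          (fun a i => hheavy a i c) ?_
        have h1 : ∀ a, (∑ i, H c a i) / Fintype.card (Fin (m a)) ≤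
            (4 * q) * (8 * (wt a c * dens b (W a) (W' c))) := fun a => by
          rw [Fintype.card_fin]
          exact hheavym a c
        calc _ ≤ ∑ a, (4 * (q : ℝ)) * (8 * (wt a c * dens b (W a) (W' c))) :=
              sum_le_sum fun a _ => h1 a
          _ = (4 * q) * (8 * ∑ a, wt a c * dens b (W a) (W' c)) := by
              rw [mul_sum, mul_sum]
          _ ≤ _ := by
              have := hcol c
              gcongr
      · refine tail (fun a => Fin (m a)) (X p) (K / s) s (4 * f p.1 p.2.2) hKs (hX0 p) (hX1 p) ?_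
        have h1 : ∀ a, (∑ i, X p a i) / Fintype.card (Fin (m a)) ≤
            4 * (wt a p.1 * dens b (W a) (V p.1 p.2.2)) := fun a => by
          rw [Fintype.card_fin]
          refine le_trans ?_ (hlightm a p.2.1 p.1 p.2.2)
          refine div_le_div_of_nonneg_right (sum_le_sum fun i _ => ?_) (Nat.cast_nonneg _)
          simp only [X]
          split_ifs
          · exact le_rfl
          · exact mul_nonneg (hwt _ _) (dens_nonneg hb _ _)
        calc _ ≤ ∑ a, 4 * (wt a p.1 * dens b (W a) (V p.1 p.2.2)) :=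
              sum_le_sum fun a _ => h1 a
          _ = _ := by simp only [f]; rw [mul_sum])
    (Dg ^ 2 * (1 + q * (4 * q))) (by
      intro i
      let N2 : Finset A := (univ.filter fun a => wt a (ctr i) ≠ 0).biUnion
        fun a => univ.filter fun c' => wt a c' ≠ 0
      have hN2 : N2.card ≤ Dg ^ 2 := near_card wt hsym Dg hDg (ctr i)
      have hsub : {j | ¬ Disjoint (S i) (S j)} ⊆
          ((N2.disjSum (N2 ×ˢ (univ : Finset (Fin q × Fin (4 * q)))) :
            Finset (A ⊕ (A × Fin q × Fin (4 * q)))) : Set (A ⊕ (A × Fin q × Fin (4 * q)))) := by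
        intro j hj
        rw [Set.mem_ofPred_eq, not_disjoint_iff] at hj
        obtain ⟨a, ha1, ha2⟩ := hj
        have hc : ctr j ∈ N2 := mem_biUnion.2 ⟨a, ha1, mem_filter.2 ⟨mem_univ _,
          (mem_filter.1 ha2).2⟩⟩
        rcases j with c | p
        · simpa using hc
        · simpa using hc
      refine (Set.ncard_le_ncard hsub (finite_toSet _)).trans ?_
      rw [Set.ncard_coe_finset, card_disjSum, card_product, card_univ, Fintype.card_prod,
        Fintype.card_fin, Fintype.card_fin]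
      calc N2.card + N2.card * (q * (4 * q)) = N2.card * (1 + q * (4 * q)) := by ring
        _ ≤ _ := Nat.mul_le_mul_right _ hN2)
    (by push_cast; exact hs2)
  refine ⟨fun a y => U a (ω a) y, fun a => lev a (ω a), fun a y => hUW a _ y,
    fun a y => hUc a _ y, fun a y y' h => hUo a _ y y' h, fun a y => hown a _ y,
    fun a c j y => hlight a _ c j y, fun c => ?_, fun c y j => ?_⟩
  · have := hω (Sum.inl c)
    simp only [E, Set.mem_ofPred_eq, not_lt] at this
    refine this.trans (le_of_eq ?_)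
    ring
  · have := hω (Sum.inr (c, y, j))
    simp only [E, Set.mem_ofPred_eq, not_lt] at this
    refine this.trans (le_of_eq ?_)
    simp only [f]
    field_simp
    ring

end Pool.Agent.Helper96.OR
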