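import Mathlib
import Pool.Agent.Helper96.OR.RowStep

/-! Refining all column windows. -/

namespace Pool.Agent.Helper96.OR

open Finset

variable {b : ℕ → ℕ → ℝ}

theorem wt'_symm {A : Type} [DecidableEq A] {q : ℕ} (wt : A → A → ℝ) (h : Fin q → Fin q → Prop)
    (l : ℝ) (hsym : ∀ a c, wt a c = wt c a) (hh : ∀ y y', h y y' → h y' y) (u v : A × Fin q) :
    wt' wt h l u v = wt' wt h l v u := by
  classical
  unfold wt'
  by_cases h1 : u.1 = v.1
  · rw [if_pos h1, if_pos h1.symm]
    by_cases h2 : h u.2 v.2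
    · rw [if_pos h2, if_pos (hh _ _ h2)]
    · rw [if_neg h2, if_neg fun h3 => h2 (hh _ _ h3)]
      by_cases h3 : u.2 = v.2
      · rw [if_pos h3, if_pos h3.symm, h1]
      · rw [if_neg h3, if_neg (Ne.symm h3)]
  · rw [if_neg h1, if_neg (Ne.symm h1)]
    by_cases h3 : u.2 = v.2
    · rw [if_pos h3, if_pos h3.symm, hsym]
    · rw [if_neg h3, if_neg (Ne.symm h3)]

theorem wt'_diag {A : Type} [DecidableEq A] {q : ℕ} (wt : A → A → ℝ) (h : Fin q → Fin q → Prop)
    (l : ℕ) (hi : ∀ y, ¬ h y y) (hl : ∀ y, {y' | h y y'}.ncard ≤ l) (a : A) (y : Fin q) :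
    ∑ y', wt' wt h l (a, y) (a, y') ≤ wt a a := by
  classical
  have h1 : ∀ y', wt' wt h l (a, y) (a, y') =
      (if h y y' then 1 else 0) + (if y = y' then wt a a - l else 0) := by
    intro y'
    unfold wt'
    simp only [if_true]
    by_cases h2 : h y y'
    · have : y ≠ y' := fun e => hi y (by rw [← e] at h2; exact h2)
      simp [h2, this]
    · simp [h2]
  simp only [h1]
  rw [sum_add_distrib, sum_ite_eq, if_pos (mem_univ _), sum_boole]
  have h3 : ((univ.filter fun y' => h y y').card : ℝ) ≤ l := by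
    have h4 := hl y
    rw [Set.ncard_eq_toFinset_card'] at h4
    have : (univ.filter fun y' => h y y') = {y' | h y y'}.toFinset := by
      ext y'; simp
    rw [this]
    exact_mod_cast h4
  linarith

theorem wt'_nonneg {A : Type} [DecidableEq A] {q : ℕ} (wt : A → A → ℝ)
    (h : Fin q → Fin q → Prop) (l : ℝ) (hwt : ∀ a c, 0 ≤ wt a c) (hla : ∀ a, l ≤ wt a a)
    (u v : A × Fin q) : 0 ≤ wt' wt h l u v := by
  classical
  unfold wt'
  split_ifs
  · exact zero_le_one
  · linarith [hla u.1]
  · exact le_rfl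
  · exact hwt _ _
  · exact le_rfl

theorem wt'_sum {A : Type} [Fintype A] [DecidableEq A] {q : ℕ} (wt : A → A → ℝ)
    (h : Fin q → Fin q → Prop) (l : ℕ) (hwt : ∀ a c, 0 ≤ wt a c) (hla : ∀ a, (l : ℝ) ≤ wt a a)
    (hpos : ∀ a, 0 < wt a a)
    (hi : ∀ y, ¬ h y y) (hl : ∀ y, {y' | h y y'}.ncard ≤ l) (a : A) (y : Fin q)
    (d : A × Fin q → ℝ) (hd : ∀ v, 0 ≤ d v) (B : ℝ) (hB : ∀ y', wt a a * d (a, y') ≤ B) :
    ∑ v, wt' wt h l (a, y) v * d v ≤ (∑ c, if c = a then 0 else wt a c * d (c, y)) + B := by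
  classical
  rw [Fintype.sum_prod_type]
  have h1 : ∀ c, ∑ y', wt' wt h l (a, y) (c, y') * d (c, y') ≤
      (if c = a then 0 else wt a c * d (c, y)) + if c = a then B else 0 := by
    intro c
    by_cases hc : c = a
    · subst hc
      rw [if_pos rfl, if_pos rfl, zero_add]
      have h2 : ∀ y', wt' wt h l (c, y) (c, y') * d (c, y') ≤
          wt' wt h l (c, y) (c, y') * (B / wt c c) := by
        intro y'
        refine mul_le_mul_of_nonneg_left ?_ (wt'_nonneg wt h l hwt hla _ _)
        rw [le_div_iff₀ (hpos c)]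
        linarith [hB y']
      have hB0 : 0 ≤ B / wt c c := by
        have := (mul_nonneg (hpos c).le (hd (c, y))).trans (hB y)
        exact div_nonneg this (hpos c).le
      calc _ ≤ ∑ y', wt' wt h l (c, y) (c, y') * (B / wt c c) := sum_le_sum fun y' _ => h2 y'
        _ = (∑ y', wt' wt h l (c, y) (c, y')) * (B / wt c c) := by rw [sum_mul]
        _ ≤ wt c c * (B / wt c c) := mul_le_mul_of_nonneg_right (wt'_diag wt h l hi hl c y) hB0
        _ = B := mul_div_cancel₀ _ (hpos c).ne'
    · rw [if_neg hc, if_neg hc, add_zero]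
      have h2 : ∀ y', wt' wt h l (a, y) (c, y') * d (c, y') =
          if y = y' then wt a c * d (c, y') else 0 := by
        intro y'
        unfold wt'
        simp only [Ne.symm hc, if_false]
        split_ifs <;> simp
      simp only [h2]
      rw [sum_ite_eq, if_pos (mem_univ _)]
  calc _ ≤ ∑ c, ((if c = a then 0 else wt a c * d (c, y)) + if c = a then B else 0) :=
        sum_le_sum fun c _ => h1 c
    _ = _ := by
        rw [sum_add_distrib, sum_ite_eq', if_pos (mem_univ _)]

theorem col_step {A : Type} [Fintype A] [DecidableEq A] (wt : A → A → ℝ)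
    (hwt : ∀ a c, 0 ≤ wt a c) (hsym : ∀ a c, wt a c = wt c a)
    (Dg : ℕ) (hDg : ∀ a, (univ.filter fun c => wt a c ≠ 0).card ≤ Dg) (hb : ∀ r c, 0 ≤ b r c)
    (q s z' : ℕ) (hq : 0 < q) (hs : 7 ≤ s) (hz' : 0 < z')
    (h : Fin q → Fin q → Prop) (hh : ∀ y y', h y y' → h y' y) (hi : ∀ y, ¬ h y y) (l : ℕ)
    (hl : ∀ y, {y' | h y y'}.ncard ≤ l) (hla : ∀ a, (l : ℝ) ≤ wt a a) (hpos : ∀ a, 0 < wt a a)
    (hs2 : Real.exp (-(s : ℝ)) * ((Dg : ℝ) ^ 2 * (1 + q * (4 * q)) + 1) ≤ 1 / 4)
    (W : A → Finset ℕ) (W' : A → Finset ℕ)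
    (V : A → Fin (4 * q) → Finset ℕ) (hV : ∀ c j, (V c j).card = z')
    (hVd : ∀ c j j', j ≠ j' → Disjoint (V c j) (V c j')) (hVu : ∀ c, univ.biUnion (V c) = W' c)
    (K : ℝ) (hK : 0 < K)
    (hcol : ∀ c, ∑ a, wt a c * dens b (W a) (W' c) ≤ K)
    (U : A → Fin q → Finset ℕ) (lev : A → A → Fin (4 * q) → ℕ)
    (hown : ∀ a y, ∑ c, wt a c * dens b (U a y) (W' c) ≤ 2 * K)
    (hlight : ∀ a c j y, wt a c * dens b (U a y) (V c j) ≤ 2 ^ (lev a c j) * (K / s))
    (hheavy : ∀ c, ∑ a, ∑ j, (if lev a c j = 0 then 0 else 2 ^ (lev a c j) * (K / s)) ≤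
        (4 * q) * ((16 + 4 * s) * K))
    (hl8 : ∀ c y j, ∑ a, (if lev a c j = 0 then wt a c * dens b (U a y) (V c j) else 0) ≤
        8 * (∑ a, wt a c * dens b (W a) (V c j)) + K) :
    ∃ jj : A → Fin q → Fin (4 * q), (∀ c, StrictMono (jj c)) ∧
      (∀ u : A × Fin q, ∑ v : A × Fin q, wt' wt h l u v *
        dens b (U u.1 u.2) (V v.1 (jj v.1 v.2)) ≤ 40 * s ^ 2 * K) ∧
      (∀ v : A × Fin q, ∑ u : A × Fin q, wt' wt h l u v *
        dens b (U u.1 u.2) (V v.1 (jj v.1 v.2)) ≤ 40 * s ^ 2 * K) := by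
  classical
  have hs7 : (7 : ℝ) ≤ s := by exact_mod_cast hs
  have hs0 : (0 : ℝ) < s := by linarith
  have hq0 : (0 : ℝ) < q := by exact_mod_cast hq
  have hq4 : 0 < 4 * q := by omega
  have hKs : 0 < K / s := div_pos hK hs0
  have hKs1 : K / s ≤ K := div_le_self hK.le (by linarith)
  let hv : A → A → Fin (4 * q) → ℝ := fun a c j =>
    if lev a c j = 0 then 0 else 2 ^ (lev a c j) * (K / s)
  have hv0 : ∀ a c j, 0 ≤ hv a c j := fun a c j => by
    simp only [hv]
    split_ifs
    · exact le_rfl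
    · positivity
  have hv1 : ∀ a c j, 2 ^ (lev a c j) * (K / s) ≤ hv a c j + K / s := fun a c j => by
    simp only [hv]
    split_ifs with h0
    · rw [h0]; simp
    · linarith
  let f : A → Fin (4 * q) → ℝ := fun c j => ∑ a, wt a c * dens b (W a) (V c j)
  have hf0 : ∀ c j, 0 ≤ f c j := fun c j =>
    sum_nonneg fun a _ => mul_nonneg (hwt _ _) (dens_nonneg hb _ _)
  have hfsum : ∀ c, ∑ j, f c j ≤ (4 * q) * K := by
    intro c
    have h1 : ∑ j, f c j = (4 * q : ℕ) * ∑ a, wt a c * dens b (W a) (W' c) := by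
      simp only [f]
      rw [sum_comm, mul_sum]
      refine sum_congr rfl fun a _ => ?_
      rw [← mul_sum, ← dens_blocks (b := b) hz' hq4 (W a) (W' c) (V c) (hV c) (hVd c) (hVu c)]
      ring
    rw [h1]
    push_cast
    have := hcol c
    gcongr
  let Dc : A → Fin (4 * q) → ℝ := fun c j => (∑ a, hv a c j) + 8 * f c j + K + K / s
  have hDc0 : ∀ c j, 0 ≤ Dc c j := fun c j => by
    have := sum_nonneg fun a (_ : a ∈ univ) => hv0 a c j
    have := hf0 c j
    simp only [Dc]
    positivity
  have hDsum : ∀ c, ∑ j, Dc c j ≤ (4 * q) * (8 * s * K) := by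
    intro c
    simp only [Dc]
    rw [sum_add_distrib, sum_add_distrib, sum_add_distrib, ← mul_sum, sum_const, sum_const,
      card_univ, Fintype.card_fin, nsmul_eq_mul, nsmul_eq_mul, sum_comm]
    have h1 : ∑ a, ∑ j, hv a c j ≤ (4 * q) * ((16 + 4 * s) * K) := hheavy c
    have h2 := hfsum c
    push_cast
    have h3 : (4 * q : ℝ) * (K / s) ≤ 4 * q * K := by gcongr
    have h4 : (0 : ℝ) < q * K := by positivity
    nlinarith
  have hDle : ∀ a c j, 2 ^ (lev a c j) * (K / s) ≤ Dc c j := by
    intro a c j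
    have h1 : hv a c j ≤ ∑ a, hv a c j := single_le_sum (fun a _ => hv0 a c j) (mem_univ a)
    have h2 := hv1 a c j
    have h3 := hf0 c j
    simp only [Dc]
    linarith
  -- good blocks
  let D' : A → ℕ → ℝ := fun c j => if hj : j < 4 * q then Dc c ⟨j, hj⟩ else 0
  let J : A → Finset ℕ := fun c => (range (4 * q)).filter fun j => D' c j ≤ 32 * s * K
  have hJ : ∀ c, (range (4 * q)).card ≤ 2 * (J c).card := by
    intro c
    have h1 := good_half (fun j => D' c j) (fun j => by
      simp only [D']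
      split_ifs
      · exact hDc0 _ _
      · exact le_rfl) (range (4 * q)) (K := 16 * s * K) (by positivity) (by
        rw [card_range, ← Fin.sum_univ_eq_sum_range (fun j => D' c j) (4 * q)]
        have h2 : ∑ j : Fin (4 * q), D' c j = ∑ j, Dc c j := by
          refine sum_congr rfl fun j _ => ?_
          simp [D']
        rw [h2]
        refine (hDsum c).trans ?_
        push_cast
        have : (0 : ℝ) < q * s * K := by positivity
        nlinarith)
    have h3 : (range (4 * q)).filter (fun r => D' c r ≤ 2 * (16 * s * K)) = J c := by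
      simp only [J]
      congr 1
      ext j
      rw [show 2 * (16 * (s : ℝ) * K) = 32 * s * K by ring]
    rw [h3] at h1
    exact h1
  have hsel := fun c => select (range (4 * q)) (J c) 1 (4 * q) q 1 one_pos (by simp)
    (filter_subset _ _) (hJ c) (fun _ => ()) (by
      refine (card_le_univ _).trans ?_
      simp) hq (by omega) hq4
  choose m UU hMm hm0 hUJ hU1 hUo _hτ hUd using hsel
  have hex : ∀ c i y, ∃ j : Fin (4 * q), UU c i y = {(j : ℕ)} := by
    intro c i y
    obtain ⟨x, hx⟩ := card_eq_one.1 (hU1 c i y)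
    have h1 : x ∈ J c := hUJ c i y (by rw [hx]; exact mem_singleton_self _)
    exact ⟨⟨x, mem_range.1 (mem_filter.1 h1).1⟩, hx⟩
  choose jf hjf using hex
  have hjJ : ∀ c i y, Dc c (jf c i y) ≤ 32 * s * K := by
    intro c i y
    have h1 : ((jf c i y : Fin (4 * q)) : ℕ) ∈ J c :=
      hUJ c i y (by rw [hjf]; exact mem_singleton_self _)
    have h2 := (mem_filter.1 h1).2
    simpa [D'] using h2
  have hjinj : ∀ c y, Function.Injective fun i => jf c i y := by
    intro c y i i' hii
    by_contra hne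
    have := hUd c y i i' hne
    have hii' : jf c i y = jf c i' y := hii
    rw [hjf, hjf, hii'] at this
    simp at this
  have hjmean : ∀ (c : A) (y : Fin q) (F : Fin (4 * q) → ℝ), (∀ j, 0 ≤ F j) →
      (∑ i, F (jf c i y)) / m c ≤ (∑ j, F j) / q := by
    intro c y F hF
    have hm0' : (0 : ℝ) < m c := by exact_mod_cast hm0 c
    have hmq : (q : ℝ) ≤ m c := by
      have := hMm c
      exact_mod_cast (by omega : q ≤ m c)
    have h1 : ∑ i, F (jf c i y) ≤ ∑ j, F j := by
      rw [← sum_image (f := F) (g := fun i => jf c i y) (fun i _ i' _ hh => hjinj c y hh)]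
      exact sum_le_sum_of_subset_of_nonneg (subset_univ _) fun j _ _ => hF j
    have h2 : 0 ≤ ∑ j, F j := sum_nonneg fun j _ => hF j
    calc _ ≤ (∑ j, F j) / m c := by gcongr
      _ ≤ _ := by gcongr
  have hne : ∀ c, Nonempty (Fin (m c)) := fun c => ⟨⟨0, hm0 c⟩⟩
  let X : A × Fin q → ∀ c, Fin (m c) → ℝ := fun p c i =>
    wt p.1 c * dens b (U p.1 p.2) (V c (jf c i p.2))
  have hX0 : ∀ p c i, 0 ≤ X p c i := fun p c i => mul_nonneg (hwt _ _) (dens_nonneg hb _ _)
  have hX1 : ∀ p c i, X p c i ≤ 32 * s * K := fun p c i =>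
    (hlight p.1 c (jf c i p.2) p.2).trans ((hDle _ _ _).trans (hjJ _ _ _))
  let E : A × Fin q → Set (∀ c, Fin (m c)) := fun p =>
    {ω | 2 * (8 * K) + s * (32 * s * K) < ∑ c, X p c (ω c)}
  let S : A × Fin q → Finset A := fun p => univ.filter fun c => wt p.1 c ≠ 0
  obtain ⟨ω, hω⟩ := lll_prod (fun c => Fin (m c)) E S (by
      intro p ω ω' hag
      have : ∀ c, X p c (ω c) = X p c (ω' c) := by
        intro c
        by_cases h0 : wt p.1 c = 0
        · simp only [X, h0, zero_mul]
        · rw [hag c (mem_filter.2 ⟨mem_univ _, h0⟩)]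
      simp only [E, Set.mem_ofPred_eq, this])
    (Real.exp (-(s : ℝ))) (by
      intro p
      refine tail (fun c => Fin (m c)) (X p) (32 * s * K) s (8 * K) (by positivity) (hX0 p)
        (hX1 p) ?_
      have h1 : ∀ c, (∑ i, X p c i) / Fintype.card (Fin (m c)) ≤
          4 * (wt p.1 c * dens b (U p.1 p.2) (W' c)) := fun c => by
        rw [Fintype.card_fin]
        have h2 := hjmean c p.2 (fun j => wt p.1 c * dens b (U p.1 p.2) (V c j))
          fun j => mul_nonneg (hwt _ _) (dens_nonneg hb _ _)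
        refine h2.trans (le_of_eq ?_)
        rw [← mul_sum, ← dens_blocks (b := b) hz' hq4 (U p.1 p.2) (W' c) (V c) (hV c) (hVd c)
          (hVu c)]
        push_cast
        field_simp
      calc _ ≤ ∑ c, 4 * (wt p.1 c * dens b (U p.1 p.2) (W' c)) := sum_le_sum fun c _ => h1 c
        _ = 4 * ∑ c, wt p.1 c * dens b (U p.1 p.2) (W' c) := by rw [mul_sum]
        _ ≤ 8 * K := by
          have := hown p.1 p.2
          linarith)
    (Dg ^ 2 * (1 + q * (4 * q))) (by
      intro p
      let N2 : Finset A := (univ.filter fun a => wt a p.1 ≠ 0).biUnion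
        fun a => univ.filter fun c' => wt a c' ≠ 0
      have hN2 : N2.card ≤ Dg ^ 2 := near_card wt hsym Dg hDg p.1
      have hsub : {p' | ¬ Disjoint (S p) (S p')} ⊆
          ((N2 ×ˢ (univ : Finset (Fin q)) : Finset (A × Fin q)) : Set (A × Fin q)) := by
        intro p' hp'
        rw [Set.mem_ofPred_eq, not_disjoint_iff] at hp'
        obtain ⟨c, hc1, hc2⟩ := hp'
        have h1 := (mem_filter.1 hc1).2
        have h2 := (mem_filter.1 hc2).2
        rw [hsym] at h1 h2
        have hc : p'.1 ∈ N2 := mem_biUnion.2 ⟨c, mem_filter.2 ⟨mem_univ _, h1⟩,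
          mem_filter.2 ⟨mem_univ _, h2⟩⟩
        simpa using hc
      refine (Set.ncard_le_ncard hsub (finite_toSet _)).trans ?_
      rw [Set.ncard_coe_finset, card_product, card_univ, Fintype.card_fin]
      calc N2.card * q ≤ Dg ^ 2 * q := Nat.mul_le_mul_right _ hN2
        _ ≤ _ := Nat.mul_le_mul_left _ (by nlinarith))
    (by push_cast; exact hs2)
  refine ⟨fun c => jf c (ω c), fun c y y' hyy => ?_, ?_, ?_⟩
  · have := hUo c (ω c) y y' hyy (jf c (ω c) y) (by rw [hjf]; exact mem_singleton_self _)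
      (jf c (ω c) y') (by rw [hjf]; exact mem_singleton_self _)
    exact this
  · rintro ⟨a, y⟩
    have h1 := wt'_sum wt h l hwt hla hpos hi hl a y
      (fun v => dens b (U a y) (V v.1 (jf v.1 (ω v.1) v.2))) (fun v => dens_nonneg hb _ _)
      (32 * s * K) (fun y' => (hlight a a (jf a (ω a) y') y).trans ((hDle _ _ _).trans
        (hjJ _ _ _)))
    refine h1.trans ?_
    have h2 := hω (a, y)
    simp only [E, Set.mem_ofPred_eq, not_lt] at h2
    have h3 : (∑ c, if c = a then 0 else wt a c * dens b (U a y) (V c (jf c (ω c) y))) ≤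
        ∑ c, X (a, y) c (ω c) := by
      refine sum_le_sum fun c _ => ?_
      split_ifs
      · exact hX0 _ _ _
      · exact le_rfl
    have h4 : 16 * K + 32 * s * K ≤ 8 * s ^ 2 * K := by
      have : 16 + 32 * (s : ℝ) ≤ 8 * s ^ 2 := by nlinarith
      nlinarith
    nlinarith
  · rintro ⟨c, y⟩
    set j := jf c (ω c) y with hj
    have h0 : ∀ u : A × Fin q, wt' wt h l u (c, y) * dens b (U u.1 u.2) (V c j) =
        wt' wt h l (c, y) u * dens b (U u.1 u.2) (V c j) := fun u => by
      rw [wt'_symm wt h l hsym hh]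
    have h1 := wt'_sum wt h l hwt hla hpos hi hl c y
      (fun u => dens b (U u.1 u.2) (V c j)) (fun v => dens_nonneg hb _ _)
      (hv c c j + K / s) (fun y' => (hlight c c j y').trans (hv1 _ _ _))
    calc _ = ∑ u : A × Fin q, wt' wt h l (c, y) u * dens b (U u.1 u.2) (V c j) :=
          sum_congr rfl fun u _ => h0 u
      _ ≤ _ := h1
      _ ≤ Dc c j := by
          have h2 : ∀ a, (if a = c then 0 else wt c a * dens b (U a y) (V c j)) ≤
              (if a = c then 0 else hv a c j) +
              (if lev a c j = 0 then wt a c * dens b (U a y) (V c j) else 0) := by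
            intro a
            have h3 : 0 ≤ wt a c * dens b (U a y) (V c j) :=
              mul_nonneg (hwt _ _) (dens_nonneg hb _ _)
            by_cases hac : a = c
            · rw [if_pos hac, if_pos hac, zero_add]
              split_ifs
              · exact h3
              · exact le_rfl
            · rw [if_neg hac, if_neg hac, hsym c a]
              simp only [hv]
              split_ifs with h4
              · rw [zero_add]
              · rw [add_zero]
                exact hlight a c j y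
          have h5 := sum_le_sum fun a (_ : a ∈ univ) => h2 a
          rw [sum_add_distrib] at h5
          have h6 := hl8 c y j
          have h7 : (∑ a, if a = c then 0 else hv a c j) + hv c c j ≤ ∑ a, hv a c j := by
            have e1 : (∑ a, if a = c then 0 else hv a c j) = ∑ a ∈ univ.erase c, hv a c j := by
              rw [← sum_erase_add _ _ (mem_univ c), if_pos rfl, add_zero]
              exact sum_congr rfl fun a ha => if_neg (ne_of_mem_erase ha)
            rw [e1, sum_erase_add _ _ (mem_univ c)]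
          simp only [Dc, f]
          linarith
      _ ≤ 32 * s * K := hjJ _ _ _
      _ ≤ _ := by
          have : 32 * (s : ℝ) ≤ 40 * s ^ 2 := by nlinarith
          exact mul_le_mul_of_nonneg_right this hK.le

end Pool.Agent.Helper96.OR
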