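import Mathlib
import Pool.Agent.Helper96.OR.Defs

/-! M9: coding of the cube by words, rank, and sorting. -/

namespace Pool.Agent.Helper96.OR

open Finset

theorem rank_lt (q k : ℕ) (u : Idx q k) : rank k u < q ^ k := by
  induction k with
  | zero => exact Nat.one_pos
  | succ k ih =>
    have h1 := ih u.1
    have h2 : (u.2 : ℕ) < q := u.2.2
    change rank k u.1 * q + (u.2 : ℕ) < q ^ (k + 1)
    calc rank k u.1 * q + (u.2 : ℕ) < rank k u.1 * q + q := by omega
      _ = (rank k u.1 + 1) * q := by ring
      _ ≤ q ^ k * q := Nat.mul_le_mul_right q h1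
      _ = q ^ (k + 1) := (pow_succ q k).symm

theorem rank_inj (q k : ℕ) : Function.Injective (rank k : Idx q k → ℕ) := by
  induction k with
  | zero => exact fun u v _ => rfl
  | succ k ih =>
    intro u v huv
    have h1 : rank k u.1 * q + (u.2 : ℕ) = rank k v.1 * q + (v.2 : ℕ) := huv
    have hu : (u.2 : ℕ) < q := u.2.2
    have hv : (v.2 : ℕ) < q := v.2.2
    have hq : 0 < q := by omega
    have h2 : rank k u.1 = rank k v.1 := by
      have e1 : (rank k u.1 * q + (u.2 : ℕ)) / q = rank k u.1 := by
        rw [mul_comm, Nat.mul_add_div hq, Nat.div_eq_of_lt hu, add_zero]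
      have e2 : (rank k v.1 * q + (v.2 : ℕ)) / q = rank k v.1 := by
        rw [mul_comm, Nat.mul_add_div hq, Nat.div_eq_of_lt hv, add_zero]
      rw [← e1, ← e2, h1]
    have h3 : (u.2 : ℕ) = v.2 := by
      rw [h2] at h1
      omega
    exact Prod.ext (ih h2) (Fin.ext h3)

theorem adj_symm {q : ℕ} (h : Fin q → Fin q → Prop) (hs : ∀ y y', h y y' → h y' y) (k : ℕ)
    (u v : Idx q k) (huv : adj h k u v) : adj h k v u := by
  induction k with
  | zero => exact huv
  | succ k ih =>
    rcases huv with ⟨h1, h2⟩ | ⟨h1, h2⟩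
    · exact Or.inl ⟨h1.symm, hs _ _ h2⟩
    · exact Or.inr ⟨ih _ _ h1, h2.symm⟩

theorem adj_irrefl {q : ℕ} (h : Fin q → Fin q → Prop) (hi : ∀ y, ¬ h y y) (k : ℕ)
    (u : Idx q k) : ¬ adj h k u u := by
  induction k with
  | zero => exact fun h => h
  | succ k ih =>
    rintro (⟨_, h2⟩ | ⟨h1, _⟩)
    · exact hi _ h2
    · exact ih _ h1

theorem adj_deg {q : ℕ} (h : Fin q → Fin q → Prop) (l : ℕ) (hl : ∀ y, {y' | h y y'}.ncard ≤ l)
    (k : ℕ) (u : Idx q k) : {v | adj h k u v}.ncard ≤ l * k := by
  induction k with
  | zero =>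
    have : {v : Idx q 0 | adj h 0 u v} = ∅ := by
      ext v
      simp [adj]
    rw [this]
    simp
  | succ k ih =>
    have hsub : {v : Idx q (k + 1) | adj h (k + 1) u v} ⊆
        ((fun y : Fin q => ((u.1, y) : Idx q (k + 1))) '' {y' | h u.2 y'}) ∪
        ((fun w : Idx q k => ((w, u.2) : Idx q (k + 1))) '' {w | adj h k u.1 w}) := by
      rintro v (⟨h1, h2⟩ | ⟨h1, h2⟩)
      · exact Or.inl ⟨v.2, h2, Prod.ext h1 rfl⟩
      · exact Or.inr ⟨v.1, h1, Prod.ext rfl h2⟩
    have hfin : (((fun y : Fin q => ((u.1, y) : Idx q (k + 1))) '' {y' | h u.2 y'}) ∪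
        ((fun w : Idx q k => ((w, u.2) : Idx q (k + 1))) '' {w | adj h k u.1 w})).Finite :=
      (Set.Finite.image _ (Set.toFinite _)).union (Set.Finite.image _ (Set.toFinite _))
    calc {v : Idx q (k + 1) | adj h (k + 1) u v}.ncard ≤ _ := Set.ncard_le_ncard hsub hfin
      _ ≤ _ := Set.ncard_union_le _ _
      _ ≤ {y' | h u.2 y'}.ncard + {w | adj h k u.1 w}.ncard :=
          Nat.add_le_add (Set.ncard_image_le (Set.toFinite _)) (Set.ncard_image_le (Set.toFinite _))
      _ ≤ l + l * k := Nat.add_le_add (hl _) (ih _)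
      _ = l * (k + 1) := by ring

/-- every injective key on a finite type is sorted by some enumeration -/
theorem sort_key (d : ℕ) (key : (Fin d → Bool) → ℕ) (hk : Function.Injective key) :
    ∃ σ : Fin (2 ^ d) ≃ (Fin d → Bool), StrictMono fun i => key (σ i) := by
  set s : Finset ℕ := univ.image key with hs
  have hcard : s.card = 2 ^ d := by
    rw [hs, card_image_of_injective _ hk, card_univ, Fintype.card_fun, Fintype.card_bool,
      Fintype.card_fin]
  let g : (Fin d → Bool) → s := fun x => ⟨key x, mem_image_of_mem _ (mem_univ _)⟩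
  have hg : Function.Bijective g := by
    constructor
    · intro x y hxy
      exact hk (Subtype.ext_iff.1 hxy)
    · rintro ⟨a, ha⟩
      obtain ⟨x, _, hx⟩ := mem_image.1 ha
      exact ⟨x, Subtype.ext hx⟩
  let f := Equiv.ofBijective g hg
  let e := s.orderIsoOfFin hcard
  refine ⟨e.toEquiv.trans f.symm, fun i j hij => ?_⟩
  have h1 : ∀ i, key ((e.toEquiv.trans f.symm) i) = (e i : ℕ) := by
    intro i
    have : f (f.symm (e i)) = e i := f.apply_symm_apply _
    exact Subtype.ext_iff.1 this
  change key ((e.toEquiv.trans f.symm) i) < key ((e.toEquiv.trans f.symm) j)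
  rw [h1, h1]
  exact e.strictMono hij

/-- an enumeration of the letters -/
noncomputable def letEq (l : ℕ) : (Fin l → Bool) ≃ Fin (2 ^ l) :=
  Fintype.equivOfCardEq (by simp)

/-- the word of the first `l k` values of `f` -/
noncomputable def word (l : ℕ) (f : ℕ → Bool) : ∀ k, Idx (2 ^ l) k
  | 0 => ()
  | k + 1 => (word l f k, letEq l fun j => f (l * k + j))

/-- adjacency of letters -/
def letAdj (l : ℕ) (y y' : Fin (2 ^ l)) : Prop :=
  hammingDist ((letEq l).symm y) ((letEq l).symm y') = 1

theorem word_eq (l : ℕ) (f f' : ℕ → Bool) (k : ℕ) (h : ∀ i < l * k, f i = f' i) :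
    word l f k = word l f' k := by
  induction k with
  | zero => rfl
  | succ k ih =>
    have h1 := ih fun i hi => h i (by rw [Nat.mul_succ]; omega)
    refine Prod.ext h1 ?_
    change letEq l (fun j => f (l * k + j)) = letEq l (fun j => f' (l * k + j))
    congr 1
    funext j
    exact h _ (by rw [Nat.mul_succ]; omega)

theorem word_inj (l : ℕ) (f f' : ℕ → Bool) (k : ℕ) (h : word l f k = word l f' k) :
    ∀ i < l * k, f i = f' i := by
  induction k with
  | zero =>
    intro i hi
    simp at hi
  | succ k ih =>
    intro i hi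
    have h1 : word l f k = word l f' k := congrArg Prod.fst h
    have h2 : letEq l (fun j => f (l * k + j)) = letEq l (fun j => f' (l * k + j)) :=
      congrArg Prod.snd h
    have h3 := (letEq l).injective h2
    by_cases hik : i < l * k
    · exact ih h1 i hik
    · rw [Nat.mul_succ] at hi
      have h4 := congrFun h3 ⟨i - l * k, by omega⟩
      simp only at h4
      rwa [Nat.add_sub_cancel' (by omega)] at h4

theorem hd_one {d : ℕ} (x x' : Fin d → Bool) (j : Fin d) (hj : x j ≠ x' j)
    (h : ∀ i, i ≠ j → x i = x' i) : hammingDist x x' = 1 := by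
  unfold hammingDist
  rw [card_eq_one]
  refine ⟨j, ?_⟩
  ext i
  simp only [mem_filter, mem_univ, true_and, mem_singleton]
  constructor
  · intro hi
    by_contra hij
    exact hi (h i hij)
  · rintro rfl
    exact hj

theorem exists_of_hd_one {d : ℕ} (x x' : Fin d → Bool) (h : hammingDist x x' = 1) :
    ∃ j, x j ≠ x' j ∧ ∀ i, i ≠ j → x i = x' i := by
  unfold hammingDist at h
  obtain ⟨j, hj⟩ := card_eq_one.1 h
  have h1 : ∀ i, x i ≠ x' i ↔ i = j := by
    intro i
    have := Finset.ext_iff.1 hj i
    simpa using this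
  refine ⟨j, (h1 j).2 rfl, fun i hi => ?_⟩
  by_contra hc
  exact hi ((h1 i).1 hc)

theorem word_adj (l : ℕ) (f f' : ℕ → Bool) (k j : ℕ) (hj : f j ≠ f' j)
    (h : ∀ i, i ≠ j → f i = f' i) :
    word l f k = word l f' k ∨ adj (letAdj l) k (word l f k) (word l f' k) := by
  induction k with
  | zero => exact Or.inl rfl
  | succ k ih =>
    by_cases h1 : j < l * k
    · have h2 : letEq l (fun j => f (l * k + j)) = letEq l (fun j => f' (l * k + j)) := by
        congr 1
        funext i
        exact h _ (by omega)
      rcases ih with ih | ih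
      · exact absurd (word_inj l f f' k ih j h1) hj
      · exact Or.inr (Or.inr ⟨ih, h2⟩)
    · have h2 : word l f k = word l f' k := word_eq l f f' k fun i hi => h i (by omega)
      by_cases h3 : j < l * (k + 1)
      · right
        left
        refine ⟨h2, ?_⟩
        change hammingDist ((letEq l).symm (letEq l fun j => f (l * k + j)))
          ((letEq l).symm (letEq l fun j => f' (l * k + j))) = 1
        rw [Equiv.symm_apply_apply, Equiv.symm_apply_apply]
        rw [Nat.mul_succ] at h3
        refine hd_one _ _ ⟨j - l * k, by omega⟩ ?_ ?_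
        · simp only
          rwa [Nat.add_sub_cancel' (by omega)]
        · intro i hi
          refine h _ fun hc => hi ?_
          apply Fin.ext
          simp only
          omega
      · exact Or.inl (word_eq l f f' (k + 1) fun i hi => h i (by omega))

/-- extension by `false` -/
def extB {d : ℕ} (x : Fin d → Bool) (i : ℕ) : Bool := if h : i < d then x ⟨i, h⟩ else false

/-- parity -/
def parB {d : ℕ} (x : Fin d → Bool) : ZMod 2 := ∑ i, if x i = true then 1 else 0

theorem parB_ne {d : ℕ} (x x' : Fin d → Bool) (j : Fin d) (hj : x j ≠ x' j)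
    (h : ∀ i, i ≠ j → x i = x' i) : parB x' = parB x + 1 := by
  unfold parB
  rw [← Finset.add_sum_erase univ _ (mem_univ j), ← Finset.add_sum_erase univ
    (fun i => if x i = true then (1 : ZMod 2) else 0) (mem_univ j)]
  have h1 : ∑ i ∈ univ.erase j, (if x' i = true then (1 : ZMod 2) else 0)
      = ∑ i ∈ univ.erase j, if x i = true then (1 : ZMod 2) else 0 := by
    refine sum_congr rfl fun i hi => ?_
    rw [h i (ne_of_mem_erase hi)]
  rw [h1]
  have h2 : (if x' j = true then (1 : ZMod 2) else 0) = (if x j = true then 1 else 0) + 1 := by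
    revert hj
    generalize x j = a
    generalize x' j = b
    revert a b
    decide
  rw [h2]
  ring

/-- `Q_d` maps into two copies of the `k`-th power of `Q_l` when `d ≤ l k + 1`: the Boolean is the
parity, the word consists of the first `l k` coordinates cut into `k` letters of length `l`
(a shorter vector is first extended by `false`). -/
theorem cube_code (l k d : ℕ) (hd : d ≤ l * k + 1) :
    ∃ (h : Fin (2 ^ l) → Fin (2 ^ l) → Prop) (φ : (Fin d → Bool) → Bool × Idx (2 ^ l) k),
      (∀ y y', h y y' → h y' y) ∧ (∀ y, ¬ h y y) ∧ (∀ y, {y' | h y y'}.ncard ≤ l) ∧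
      Function.Injective φ ∧
      ∀ x x', hammingDist x x' = 1 → (φ x).1 ≠ (φ x').1 ∧
        ((φ x).2 = (φ x').2 ∨ adj h k (φ x).2 (φ x').2) := by
  have hdec : ∀ a b : ZMod 2, b = a + 1 → decide (a = 1) ≠ decide (b = 1) := by decide
  refine ⟨letAdj l, fun x => (decide (parB x = 1), word l (extB x) k), ?_, ?_, ?_, ?_, ?_⟩
  · intro y y' hy
    unfold letAdj at *
    rwa [hammingDist_comm]
  · intro y hy
    unfold letAdj at hy
    rw [hammingDist_self] at hy
    exact absurd hy (by norm_num)
  · intro y
    have hsub : {y' | letAdj l y y'} ⊆ (fun j : Fin l => letEq l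
        (Function.update ((letEq l).symm y) j (!((letEq l).symm y j)))) '' Set.univ := by
      intro y' hy'
      obtain ⟨j, hj, hj'⟩ := exists_of_hd_one _ _ hy'
      refine ⟨j, Set.mem_univ _, ?_⟩
      simp only
      rw [← Equiv.eq_symm_apply]
      funext i
      by_cases hij : i = j
      · subst hij
        rw [Function.update_self]
        revert hj
        generalize (letEq l).symm y i = a
        generalize (letEq l).symm y' i = b
        revert a b
        decide
      · rw [Function.update_of_ne hij]
        exact hj' i hij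
    calc {y' | letAdj l y y'}.ncard ≤ _ := Set.ncard_le_ncard hsub (Set.toFinite _)
      _ ≤ (Set.univ : Set (Fin l)).ncard := Set.ncard_image_le (Set.toFinite _)
      _ = l := by rw [Set.ncard_univ, Nat.card_eq_fintype_card, Fintype.card_fin]
  · intro x x' hxx
    have h1 : decide (parB x = 1) = decide (parB x' = 1) := congrArg Prod.fst hxx
    have h2 : word l (extB x) k = word l (extB x') k := congrArg Prod.snd hxx
    have h3 := word_inj l _ _ k h2
    have h4 : ∀ i : Fin d, (i : ℕ) < l * k → x i = x' i := by
      intro i hi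
      have := h3 i hi
      unfold extB at this
      simpa [i.2] using this
    by_contra hne
    obtain ⟨j, hj⟩ := Function.ne_iff.1 hne
    have hjk : l * k ≤ j := by
      by_contra hc
      exact hj (h4 j (by omega))
    have h5 := parB_ne x x' j hj fun i hi => h4 i (by
      have hi2 : (i : ℕ) ≠ j := fun hc => hi (Fin.ext hc)
      have := i.2
      have := j.2
      omega)
    exact hdec _ _ h5 h1
  · intro x x' hxx
    obtain ⟨j, hj, hj'⟩ := exists_of_hd_one _ _ hxx
    refine ⟨hdec _ _ (parB_ne x x' j hj hj'), ?_⟩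
    refine word_adj l (extB x) (extB x') k j ?_ ?_
    · unfold extB
      simpa [j.2] using hj
    · intro i hi
      unfold extB
      by_cases hid : i < d
      · simp only [hid, dif_pos]
        exact hj' _ fun hc => hi (by rw [← hc])
      · simp only [hid, dif_neg, not_false_eq_true]

end Pool.Agent.Helper96.OR
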