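import Mathlib
import Pool.Agent.Helper96.OR.ColStep
import Pool.Agent.Helper96.OR.M9

/-! Iterating the block step. -/

namespace Pool.Agent.Helper96.OR

open Finset

variable {b : ℕ → ℕ → ℝ}

/-- weights at level `i` of `k` -/
noncomputable def wtI {q : ℕ} (h : Fin q → Fin q → Prop) (l k i : ℕ) (a c : Idx q i) : ℝ := by
  classical
  exact if a = c then 1 + (l : ℝ) * (k - i : ℕ) else if adj h i a c then 1 else 0

theorem wtI_succ {q : ℕ} (h : Fin q → Fin q → Prop) (hi : ∀ y, ¬ h y y) (l k i : ℕ) (hik : i < k)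
    (u v : Idx q i × Fin q) :
    wt' (wtI h l k i) h (l : ℝ) u v = wtI (q := q) h l k (i + 1) u v := by
  classical
  obtain ⟨u1, u2⟩ := u
  obtain ⟨v1, v2⟩ := v
  have hki : ((k - i : ℕ) : ℝ) = ((k - (i + 1) : ℕ) : ℝ) + 1 := by
    have : k - i = k - (i + 1) + 1 := by omega
    rw [this]
    push_cast
    ring
  have hpair : ((u1, u2) : Idx q i × Fin q) = (v1, v2) ↔ u1 = v1 ∧ u2 = v2 := by
    rw [Prod.mk.injEq]
  have hadj : adj h (i + 1) (u1, u2) (v1, v2) ↔
      (u1 = v1 ∧ h u2 v2) ∨ (adj h i u1 v1 ∧ u2 = v2) := Iff.rfl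
  unfold wt' wtI
  change (if u1 = v1 then (if h u2 v2 then (1 : ℝ) else if u2 = v2 then
      (if u1 = u1 then 1 + (l : ℝ) * ((k - i : ℕ) : ℝ) else if adj h i u1 u1 then 1 else 0) - l
      else 0) else if u2 = v2 then (if u1 = v1 then 1 + (l : ℝ) * ((k - i : ℕ) : ℝ) else
      if adj h i u1 v1 then 1 else 0) else 0) =
    if ((u1, u2) : Idx q i × Fin q) = (v1, v2) then 1 + (l : ℝ) * ((k - (i + 1) : ℕ) : ℝ) else
      if adj h (i + 1) (u1, u2) (v1, v2) then 1 else 0
  rw [if_pos (rfl : u1 = u1), hki]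
  by_cases h1 : u1 = v1
  · subst h1
    by_cases h2 : u2 = v2
    · subst h2
      have h3 := hi u2
      rw [if_pos rfl, if_neg h3, if_pos rfl, if_pos rfl]
      ring
    · have h4 : ¬ ((u1, u2) : Idx q i × Fin q) = (u1, v2) := fun e => h2 (hpair.1 e).2
      rw [if_pos rfl, if_neg h2, if_neg h4]
      by_cases h3 : h u2 v2
      · rw [if_pos h3, if_pos (hadj.2 (Or.inl ⟨rfl, h3⟩))]
      · rw [if_neg h3, if_neg]
        intro h5
        rcases hadj.1 h5 with h6 | h6
        · exact h3 h6.2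
        · exact h2 h6.2
  · have h4 : ¬ ((u1, u2) : Idx q i × Fin q) = (v1, v2) := fun e => h1 (hpair.1 e).1
    rw [if_neg h1, if_neg h4, if_neg h1]
    by_cases h2 : u2 = v2
    · rw [if_pos h2]
      by_cases h3 : adj h i u1 v1
      · rw [if_pos h3, if_pos (hadj.2 (Or.inr ⟨h3, h2⟩))]
      · rw [if_neg h3, if_neg]
        intro h5
        rcases hadj.1 h5 with h6 | h6
        · exact h1 h6.1
        · exact h3 h6.1
    · rw [if_neg h2, if_neg]
      intro h5
      rcases hadj.1 h5 with h6 | h6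
      · exact h1 h6.1
      · exact h2 h6.2

theorem iterate_step (q l k s L T M : ℕ) (hq : 0 < q) (hs : 7 ≤ s) (hL : 8 * q * s < 2 ^ L)
    (hT : T = ((1 + l * k) * (4 * q) * L + 1) ^ (8 * q * s)) (hM : M = 4 * q * T)
    (hs2 : Real.exp (-(s : ℝ)) * (((1 + l * k : ℕ) : ℝ) ^ 2 * (1 + q * (4 * q)) + 1) ≤ 1 / 4)
    (h : Fin q → Fin q → Prop) (hh : ∀ y y', h y y' → h y' y) (hi : ∀ y, ¬ h y y)
    (hl : ∀ y, {y' | h y y'}.ncard ≤ l) (hb : ∀ r c, 0 ≤ b r c)
    (X Y : Finset ℕ) (hX : X.card = M ^ k) (hY : Y.card = (4 * q) ^ k) (K : ℝ) (hK : 0 < K)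
    (hXY : (1 + (l : ℝ) * k) * dens b X Y ≤ K) : ∀ i ≤ k,
    ∃ W W' : Idx q i → Finset ℕ, (∀ a, W a ⊆ X) ∧ (∀ a, W' a ⊆ Y) ∧
      (∀ a, (W a).card = M ^ (k - i)) ∧ (∀ a, (W' a).card = (4 * q) ^ (k - i)) ∧
      (∀ a a', rank i a < rank i a' → ∀ r ∈ W a, ∀ r' ∈ W a', r < r') ∧
      (∀ a a', rank i a < rank i a' → ∀ r ∈ W' a, ∀ r' ∈ W' a', r < r') ∧
      (∀ a, ∑ c, wtI h l k i a c * dens b (W a) (W' c) ≤ (40 * (s : ℝ) ^ 2) ^ i * K) ∧
      (∀ c, ∑ a, wtI h l k i a c * dens b (W a) (W' c) ≤ (40 * (s : ℝ) ^ 2) ^ i * K) := by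
  classical
  intro i
  induction i with
  | zero =>
    intro _
    refine ⟨fun _ => X, fun _ => Y, fun _ => subset_rfl, fun _ => subset_rfl, fun _ => hX,
      fun _ => hY, ?_, ?_, ?_, ?_⟩
    · intro a a' hlt
      exact absurd hlt (lt_irrefl 0)
    · intro a a' hlt
      exact absurd hlt (lt_irrefl 0)
    · intro a
      rw [pow_zero, one_mul]
      refine le_trans (le_of_eq ?_) hXY
      have : ∀ c : Idx q 0, wtI h l k 0 a c = 1 + (l : ℝ) * k := fun c => by
        unfold wtI
        rw [if_pos (show a = c from rfl)]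
        simp
      simp only [this]
      rw [← mul_sum, sum_const, card_univ, show Fintype.card (Idx q 0) = 1 from rfl, one_smul]
    · intro a
      rw [pow_zero, one_mul]
      refine le_trans (le_of_eq ?_) hXY
      have : ∀ c : Idx q 0, wtI h l k 0 c a = 1 + (l : ℝ) * k := fun c => by
        unfold wtI
        rw [if_pos (show c = a from rfl)]
        simp
      simp only [this]
      rw [← mul_sum, sum_const, card_univ, show Fintype.card (Idx q 0) = 1 from rfl, one_smul]
  | succ i ih =>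
    intro hik
    obtain ⟨W, W', hWX, hWY, hWc, hWc', hWo, hWo', hrow, hcol⟩ := ih (by omega)
    have hM0 : 0 < M := by
      rw [hM, hT]; positivity
    set z := M ^ (k - (i + 1)) with hz
    set z' := (4 * q) ^ (k - (i + 1)) with hz'
    have hz0 : 0 < z := by rw [hz]; positivity
    have hz0' : 0 < z' := by rw [hz']; positivity
    have hki : k - i = (k - (i + 1)) + 1 := by omega
    have hWc1 : ∀ a, (W a).card = M * z := fun a => by
      rw [hWc, hki, pow_succ, mul_comm, hz]
    have hWc1' : ∀ a, (W' a).card = 4 * q * z' := fun a => by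
      rw [hWc', hki, pow_succ, mul_comm, hz']
    have hbl := fun c => blocks (W' c) z' (4 * q) (hWc1' c)
    choose V hVc hVs hVo hVu using hbl
    have hVd : ∀ c j j', j ≠ j' → Disjoint (V c j) (V c j') := by
      intro c j j' hjj
      rw [disjoint_left]
      intro x hx hx'
      rcases lt_or_gt_of_ne hjj with h1 | h1
      · exact lt_irrefl _ (hVo c j j' h1 x hx x hx')
      · exact lt_irrefl _ (hVo c j' j h1 x hx' x hx)
    set wt := wtI h l k i with hwt
    have hwt0 : ∀ a c, 0 ≤ wt a c := fun a c => by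
      rw [hwt]; unfold wtI
      split_ifs <;> positivity
    have hsym : ∀ a c, wt a c = wt c a := fun a c => by
      rw [hwt]; unfold wtI
      by_cases h1 : a = c
      · rw [if_pos h1, if_pos h1.symm]
      · rw [if_neg h1, if_neg (Ne.symm h1)]
        by_cases h2 : adj h i a c
        · rw [if_pos h2, if_pos (adj_symm h hh i a c h2)]
        · rw [if_neg h2, if_neg fun h3 => h2 (adj_symm h hh i c a h3)]
    have hdiag : ∀ a, wt a a = 1 + (l : ℝ) * (k - i : ℕ) := fun a => by
      rw [hwt]; unfold wtI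
      rw [if_pos rfl]
    have hDg : ∀ a, (univ.filter fun c => wt a c ≠ 0).card ≤ 1 + l * k := by
      intro a
      have h1 : (univ.filter fun c => wt a c ≠ 0) ⊆ insert a {v | adj h i a v}.toFinset := by
        intro c hc
        have h2 := (mem_filter.1 hc).2
        rw [mem_insert, Set.mem_toFinset]
        by_contra h3
        push Not at h3
        apply h2
        have h4 : ¬ adj h i a c := h3.2
        rw [hwt]; unfold wtI
        rw [if_neg (Ne.symm h3.1), if_neg h4]
      refine (card_le_card h1).trans ((card_insert_le _ _).trans ?_)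
      have h2 := adj_deg h l hl i a
      rw [Set.ncard_eq_toFinset_card'] at h2
      have : l * i ≤ l * k := Nat.mul_le_mul_left _ (by omega)
      omega
    have hKi : 0 < (40 * (s : ℝ) ^ 2) ^ i * K := by
      have : (0 : ℝ) < s := by exact_mod_cast (by omega : 0 < s)
      positivity
    obtain ⟨U, lev, hUW, hUc, hUo, hown, hlight, hheavy, hl8⟩ :=
      row_step (b := b) wt hwt0 hsym (1 + l * k) hDg hb q s L T M z z' hq hs hL hT hM hz0 hz0'
        hs2 W hWc1 W' V hVc hVd hVu _ hKi hrow hcol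
    obtain ⟨jj, hjj, hr, hc⟩ :=
      col_step (b := b) wt hwt0 hsym (1 + l * k) hDg hb q s z' hq hs hz0' h hh hi l hl
        (fun a => by
          rw [hdiag]
          have h1 : (1 : ℝ) ≤ ((k - i : ℕ) : ℝ) := by exact_mod_cast (by omega : 1 ≤ k - i)
          have h2 : (0 : ℝ) ≤ l := Nat.cast_nonneg _
          nlinarith)
        (fun a => by rw [hdiag]; positivity) hs2 W W' V hVc hVd hVu _ hKi hcol U lev hown hlight
        hheavy hl8
    have hlt : ∀ u u' : Idx q i × Fin q, rank (i + 1) u < rank (i + 1) u' →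
        rank i u.1 < rank i u'.1 ∨ (u.1 = u'.1 ∧ u.2 < u'.2) := by
      rintro ⟨u1, u2⟩ ⟨v1, v2⟩ huv
      change rank i u1 * q + (u2 : ℕ) < rank i v1 * q + (v2 : ℕ) at huv
      change rank i u1 < rank i v1 ∨ (u1 = v1 ∧ u2 < v2)
      rcases lt_trichotomy (rank i u1) (rank i v1) with h1 | h1 | h1
      · exact Or.inl h1
      · refine Or.inr ⟨rank_inj q i h1, ?_⟩
        rw [h1] at huv
        exact Fin.lt_def.2 (by omega)
      · exfalso
        have h2 : (rank i v1 + 1) * q ≤ rank i u1 * q := Nat.mul_le_mul_right _ h1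
        have h3 := v2.2
        rw [add_mul, one_mul] at h2
        omega
    refine ⟨fun u => U u.1 u.2, fun v => V v.1 (jj v.1 v.2), fun u => (hUW _ _).trans (hWX _),
      fun v => (hVs _ _).trans (hWY _), fun u => hUc _ _, fun v => hVc _ _, ?_, ?_, ?_, ?_⟩
    · rintro ⟨u1, u2⟩ ⟨v1, v2⟩ huu r hr r' hr'
      change r ∈ U u1 u2 at hr
      change r' ∈ U v1 v2 at hr'
      rcases hlt (u1, u2) (v1, v2) huu with h1 | ⟨h1, h2⟩
      · exact hWo _ _ h1 r (hUW _ _ hr) r' (hUW _ _ hr')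
      · change u1 = v1 at h1
        subst h1
        exact hUo _ _ _ h2 r hr r' hr'
    · rintro ⟨u1, u2⟩ ⟨v1, v2⟩ huu r hr r' hr'
      change r ∈ V u1 (jj u1 u2) at hr
      change r' ∈ V v1 (jj v1 v2) at hr'
      rcases hlt (u1, u2) (v1, v2) huu with h1 | ⟨h1, h2⟩
      · exact hWo' _ _ h1 r (hVs _ _ hr) r' (hVs _ _ hr')
      · change u1 = v1 at h1
        subst h1
        exact hVo _ _ _ (hjj _ h2) r hr r' hr'
    · intro u
      have h1 := hr u
      rw [pow_succ]
      refine le_trans (le_of_eq ?_) (h1.trans (le_of_eq (by ring)))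
      refine sum_congr rfl fun v _ => ?_
      exact (congrArg (fun x => x * _) (wtI_succ h hi l k i (by omega) u v)).symm
    · intro v
      have h1 := hc v
      rw [pow_succ]
      refine le_trans (le_of_eq ?_) (h1.trans (le_of_eq (by ring)))
      refine sum_congr rfl fun u _ => ?_
      exact (congrArg (fun x => x * _) (wtI_succ h hi l k i (by omega) u v)).symm

/-- a rectangle with few bad entries contains the pattern -/
theorem pattern (q l k s L T M : ℕ) (hq : 0 < q) (hs : 7 ≤ s) (hL : 8 * q * s < 2 ^ L)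
    (hT : T = ((1 + l * k) * (4 * q) * L + 1) ^ (8 * q * s)) (hM : M = 4 * q * T)
    (hs2 : Real.exp (-(s : ℝ)) * (((1 + l * k : ℕ) : ℝ) ^ 2 * (1 + q * (4 * q)) + 1) ≤ 1 / 4)
    (h : Fin q → Fin q → Prop) (hh : ∀ y y', h y y' → h y' y) (hi : ∀ y, ¬ h y y)
    (hl : ∀ y, {y' | h y y'}.ncard ≤ l) (hb : ∀ r c, b r c = 0 ∨ b r c = 1)
    (X Y : Finset ℕ) (hX : X.card = M ^ k) (hY : Y.card = (4 * q) ^ k)
    (hXY : (1 + (l : ℝ) * k) * dens b X Y ≤ 1 / (2 * (40 * (s : ℝ) ^ 2) ^ k)) :
    ∃ r c : Idx q k → ℕ, (∀ v, r v ∈ X) ∧ (∀ v, c v ∈ Y) ∧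
      (∀ v v', rank k v < rank k v' → r v < r v') ∧
      (∀ v v', rank k v < rank k v' → c v < c v') ∧
      ∀ v w, (v = w ∨ adj h k v w) → b (r v) (c w) = 0 := by
  classical
  have hs0 : (0 : ℝ) < s := by exact_mod_cast (by omega : 0 < s)
  have hb0 : ∀ r c, 0 ≤ b r c := fun r c => by
    rcases hb r c with h | h <;> rw [h]
    exact zero_le_one
  have hg : (0 : ℝ) < (40 * (s : ℝ) ^ 2) ^ k := by positivity
  obtain ⟨W, W', hWX, hWY, hWc, hWc', hWo, hWo', hrow, -⟩ :=
    iterate_step q l k s L T M hq hs hL hT hM hs2 h hh hi hl hb0 X Y hX hY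
      (1 / (2 * (40 * (s : ℝ) ^ 2) ^ k)) (by positivity) hXY k le_rfl
  have h1 : ∀ a, ∃ x, W a = {x} := fun a => card_eq_one.1 (by rw [hWc, Nat.sub_self, pow_zero])
  have h2 : ∀ a, ∃ x, W' a = {x} := fun a => card_eq_one.1 (by rw [hWc', Nat.sub_self, pow_zero])
  choose r hr using h1
  choose c hc using h2
  refine ⟨r, c, fun v => hWX v (by rw [hr]; exact mem_singleton_self _),
    fun v => hWY v (by rw [hc]; exact mem_singleton_self _),
    fun v v' hv => hWo v v' hv _ (by rw [hr]; exact mem_singleton_self _) _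
      (by rw [hr]; exact mem_singleton_self _),
    fun v v' hv => hWo' v v' hv _ (by rw [hc]; exact mem_singleton_self _) _
      (by rw [hc]; exact mem_singleton_self _), ?_⟩
  intro v w hvw
  rcases hb (r v) (c w) with h3 | h3
  · exact h3
  exfalso
  have h4 : (1 : ℝ) ≤ wtI h l k k v w := by
    unfold wtI
    by_cases h5 : v = w
    · rw [if_pos h5]
      simp
    · rw [if_neg h5, if_pos (hvw.resolve_left h5)]
  have h5 : wtI h l k k v w * dens b (W v) (W' w) ≤
      ∑ c, wtI h l k k v c * dens b (W v) (W' c) := by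
    refine single_le_sum (f := fun c => wtI h l k k v c * dens b (W v) (W' c)) (fun c _ => ?_)
      (mem_univ w)
    refine mul_nonneg ?_ (dens_nonneg hb0 _ _)
    unfold wtI
    split_ifs <;> positivity
  have h6 := hrow v
  have h7 : dens b (W v) (W' w) = 1 := by
    rw [hr, hc, dens]
    simp [h3]
  rw [h7, mul_one] at h5
  have h8 : (40 * (s : ℝ) ^ 2) ^ k * (1 / (2 * (40 * (s : ℝ) ^ 2) ^ k)) = 1 / 2 := by
    field_simp
  rw [h8] at h6
  linarith

end Pool.Agent.Helper96.OR
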