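import Mathlib

/-! M10: choice of parameters. -/

namespace Pool.Agent.Helper96.OR

/-- the integer part: everything is at most a power of two with an explicit exponent -/
theorem m10_nat (d m l k s b : ℕ) (hm : m = Nat.log 2 d) (hd : 32 ≤ d) (hl : l = m / 4)
    (hk : k = d / l + 1) (hs : s = 3 * m + 10) (hb : 40 * s ^ 2 ≤ 2 ^ b) :
    0 < l ∧ d ≤ l * k + 1 ∧ l * k ≤ 2 * d ∧ 8 * 2 ^ l * s < 2 ^ d ∧
    Real.exp (-(s : ℝ)) * ((((1 + l * k : ℕ)) : ℝ) ^ 2 *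
      (1 + ((2 ^ l : ℕ) : ℝ) * (4 * ((2 ^ l : ℕ) : ℝ))) + 1) ≤ 1 / 4 ∧
    (2 ^ l) ^ k * (((1 + l * k) + 1) * (4 * 2 ^ l *
      (((1 + l * k) * (4 * 2 ^ l) * d + 1) ^ (8 * 2 ^ l * s))) ^ k +
      (4 * 2 ^ l) ^ k * (2 * (1 + l * k) * (40 * s ^ 2) ^ k) ^ (1 + l * k)) ≤
    2 ^ (2 * d + 1 + (m + 3) + k * (l + 2 + (3 * m + 6) * (8 * 2 ^ l * s)) + (l + 2) * k +
      (m + 3 + b * k) * (2 * d + 1)) := by
  have hd0 : d ≠ 0 := by omega
  have hm1 : 2 ^ m ≤ d := by rw [hm]; exact Nat.pow_log_le_self 2 hd0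
  have hm2 : d < 2 ^ (m + 1) := by
    rw [hm]
    exact Nat.lt_pow_succ_log_self (by norm_num) d
  have hm5 : 5 ≤ m := by
    rw [hm]
    apply Nat.le_log_of_pow_le (by norm_num)
    exact hd
  have hlpos : 0 < l := by omega
  have h4l : 4 * l ≤ m := by omega
  have hmd : m < 2 ^ m := Nat.lt_two_pow_self
  have hld : l ≤ d := by omega
  have hk1 : d < d / l * l + l := Nat.lt_div_mul_add hlpos
  have hk2 : d / l * l ≤ d := Nat.div_mul_le_self d l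
  have hlk : l * k = d / l * l + l := by
    rw [hk]
    ring
  have hlk1 : d ≤ l * k + 1 := by omega
  have hlk2 : l * k ≤ 2 * d := by omega
  have hpow1 : (2 : ℕ) ^ (m + 1) = 2 * 2 ^ m := by ring
  have hpow2 : (2 : ℕ) ^ (m + 2) = 4 * 2 ^ m := by ring
  have hpow3 : (2 : ℕ) ^ (m + 3) = 8 * 2 ^ m := by ring
  have hD : 1 + l * k ≤ 2 ^ (m + 2) := by omega
  have hs4 : s < 2 ^ (m + 4) := by
    have : (2 : ℕ) ^ (m + 4) = 16 * 2 ^ m := by ring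
    have h32 : 2 ^ 5 ≤ 2 ^ m := Nat.pow_le_pow_right (by norm_num) hm5
    omega
  refine ⟨hlpos, hlk1, hlk2, ?_, ?_, ?_⟩
  · have h1 : 8 * 2 ^ l * s < 8 * 2 ^ l * 2 ^ (m + 4) := by
      apply Nat.mul_lt_mul_of_pos_left hs4 (by positivity)
    have h2 : 8 * 2 ^ l * 2 ^ (m + 4) = 2 ^ (l + m + 7) := by ring
    have h3 : l + m + 7 ≤ d := by
      have h4 : ∀ x : ℕ, 5 ≤ x → 2 * x + 7 ≤ 2 ^ x := by
        intro x hx
        induction x, hx using Nat.le_induction with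
        | base => norm_num
        | succ x hx ih => rw [pow_succ]; omega
      have := h4 m hm5
      omega
    calc 8 * 2 ^ l * s < 2 ^ (l + m + 7) := by rw [← h2]; exact h1
      _ ≤ 2 ^ d := Nat.pow_le_pow_right (by norm_num) h3
  · have h1 : ((1 + l * k : ℕ) : ℝ) ≤ 2 ^ (m + 2) := by exact_mod_cast hD
    have h2 : (1 : ℝ) + ((2 ^ l : ℕ) : ℝ) * (4 * ((2 ^ l : ℕ) : ℝ)) ≤ 2 ^ (2 * l + 3) := by
      push_cast
      have h3 : (1 : ℝ) ≤ 2 ^ l := one_le_pow₀ (by norm_num)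
      have h4 : (2 : ℝ) ^ (2 * l + 3) = 8 * (2 ^ l * 2 ^ l) := by
        rw [pow_add, two_mul, pow_add]; ring
      rw [h4]
      nlinarith
    have h3 : ((1 + l * k : ℕ) : ℝ) ^ 2 * (1 + ((2 ^ l : ℕ) : ℝ) * (4 * ((2 ^ l : ℕ) : ℝ))) + 1 ≤
        2 ^ (3 * m + 8) := by
      have h4 : ((1 + l * k : ℕ) : ℝ) ^ 2 * (1 + ((2 ^ l : ℕ) : ℝ) * (4 * ((2 ^ l : ℕ) : ℝ))) ≤
          (2 ^ (m + 2)) ^ 2 * 2 ^ (2 * l + 3) := by
        gcongr
      have h5 : ((2 : ℝ) ^ (m + 2)) ^ 2 * 2 ^ (2 * l + 3) = 2 ^ (2 * m + 2 * l + 7) := by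
        rw [← pow_mul, ← pow_add]
        congr 1
        ring
      have h6 : (1 : ℝ) ≤ 2 ^ (2 * m + 2 * l + 7) := one_le_pow₀ (by norm_num)
      have h7 : (2 : ℝ) ^ (2 * m + 2 * l + 7) * 2 ≤ 2 ^ (3 * m + 8) := by
        rw [← pow_succ]
        exact pow_le_pow_right₀ (by norm_num) (by omega)
      linarith
    have h4 : Real.exp (-(s : ℝ)) ≤ 1 / 2 ^ s := by
      rw [Real.exp_neg, ← one_div]
      apply one_div_le_one_div_of_le (by positivity)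
      have h5 : (2 : ℝ) ≤ Real.exp 1 := by
        have := Real.add_one_le_exp (1 : ℝ)
        linarith
      calc (2 : ℝ) ^ s ≤ (Real.exp 1) ^ s := by gcongr
        _ = Real.exp s := by rw [← Real.exp_nat_mul]; simp
    calc Real.exp (-(s : ℝ)) * ((((1 + l * k : ℕ)) : ℝ) ^ 2 *
      (1 + ((2 ^ l : ℕ) : ℝ) * (4 * ((2 ^ l : ℕ) : ℝ))) + 1)
        ≤ 1 / 2 ^ s * 2 ^ (3 * m + 8) := by
          gcongr
      _ = 1 / 4 := by
          rw [hs, show 3 * m + 10 = (3 * m + 8) + 2 by ring, pow_add _ (3 * m + 8) 2]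
          field_simp
          norm_num
  · set D := 1 + l * k with hDdef
    have hT : D * (4 * 2 ^ l) * d + 1 ≤ 2 ^ (3 * m + 6) := by
      have h1 : D * (4 * 2 ^ l) * d ≤ 2 ^ (m + 2) * 2 ^ (l + 2) * 2 ^ (m + 1) := by
        have h2 : 4 * 2 ^ l = 2 ^ (l + 2) := by ring
        rw [h2]
        gcongr
      have h3 : (2 : ℕ) ^ (m + 2) * 2 ^ (l + 2) * 2 ^ (m + 1) = 2 ^ (2 * m + l + 5) := by
        rw [← pow_add, ← pow_add]
        congr 1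
        ring
      have h4 : (1 : ℕ) ≤ 2 ^ (2 * m + l + 5) := Nat.one_le_two_pow
      have h5 : (2 : ℕ) ^ (2 * m + l + 5) * 2 ≤ 2 ^ (3 * m + 6) := by
        rw [← pow_succ]
        exact Nat.pow_le_pow_right (by norm_num) (by omega)
      omega
    have hM : (4 * 2 ^ l * (D * (4 * 2 ^ l) * d + 1) ^ (8 * 2 ^ l * s)) ^ k ≤
        2 ^ (k * (l + 2 + (3 * m + 6) * (8 * 2 ^ l * s))) := by
      have h1 : 4 * 2 ^ l * (D * (4 * 2 ^ l) * d + 1) ^ (8 * 2 ^ l * s) ≤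
          2 ^ (l + 2 + (3 * m + 6) * (8 * 2 ^ l * s)) := by
        have h2 : 4 * 2 ^ l = 2 ^ (l + 2) := by ring
        have h3 := Nat.mul_le_mul h2.le (Nat.pow_le_pow_left hT (8 * 2 ^ l * s))
        rw [← pow_mul, ← pow_add] at h3
        exact h3
      calc (4 * 2 ^ l * (D * (4 * 2 ^ l) * d + 1) ^ (8 * 2 ^ l * s)) ^ k
          ≤ (2 ^ (l + 2 + (3 * m + 6) * (8 * 2 ^ l * s))) ^ k := Nat.pow_le_pow_left h1 k
        _ = _ := by rw [← pow_mul, mul_comm]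
    have hE : (2 * D * (40 * s ^ 2) ^ k) ^ D ≤ 2 ^ ((m + 3 + b * k) * (2 * d + 1)) := by
      have h1 : 2 * D * (40 * s ^ 2) ^ k ≤ 2 ^ (m + 3 + b * k) := by
        rw [pow_add, pow_mul]
        have h2 : 2 * D ≤ 2 ^ (m + 3) := by omega
        gcongr
      have h2 : D ≤ 2 * d + 1 := by omega
      calc (2 * D * (40 * s ^ 2) ^ k) ^ D ≤ (2 ^ (m + 3 + b * k)) ^ D := Nat.pow_le_pow_left h1 D
        _ = 2 ^ ((m + 3 + b * k) * D) := by rw [← pow_mul]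
        _ ≤ _ := Nat.pow_le_pow_right (by norm_num) (Nat.mul_le_mul_left _ h2)
    have hq : (2 ^ l) ^ k ≤ 2 ^ (2 * d) := by
      rw [← pow_mul]
      exact Nat.pow_le_pow_right (by norm_num) hlk2
    have h4q : (4 * 2 ^ l) ^ k = 2 ^ ((l + 2) * k) := by
      have h2 : 4 * 2 ^ l = 2 ^ (l + 2) := by ring
      rw [h2, ← pow_mul]
    have hD1 : D + 1 ≤ 2 ^ (m + 3) := by omega
    set e1 := k * (l + 2 + (3 * m + 6) * (8 * 2 ^ l * s)) with he1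
    set e2 := (m + 3 + b * k) * (2 * d + 1) with he2
    calc (2 ^ l) ^ k * ((D + 1) * (4 * 2 ^ l *
          ((D * (4 * 2 ^ l) * d + 1) ^ (8 * 2 ^ l * s))) ^ k +
          (4 * 2 ^ l) ^ k * (2 * D * (40 * s ^ 2) ^ k) ^ D)
        ≤ 2 ^ (2 * d) * (2 ^ (m + 3) * 2 ^ e1 + 2 ^ ((l + 2) * k) * 2 ^ e2) := by
          rw [h4q]
          gcongr
      _ = 2 ^ (2 * d) * (2 ^ (m + 3 + e1) + 2 ^ ((l + 2) * k + e2)) := by
          rw [← pow_add, ← pow_add]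
      _ ≤ 2 ^ (2 * d) * (2 ^ (m + 3 + e1 + (l + 2) * k + e2) +
            2 ^ (m + 3 + e1 + (l + 2) * k + e2)) := by
          have h5 : (2 : ℕ) ^ (m + 3 + e1) ≤ 2 ^ (m + 3 + e1 + (l + 2) * k + e2) :=
            Nat.pow_le_pow_right (by norm_num) (by omega)
          have h6 : (2 : ℕ) ^ ((l + 2) * k + e2) ≤ 2 ^ (m + 3 + e1 + (l + 2) * k + e2) :=
            Nat.pow_le_pow_right (by norm_num) (by omega)
          exact Nat.mul_le_mul_left _ (Nat.add_le_add h5 h6)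
      _ = 2 ^ (2 * d + 1 + (m + 3) + e1 + (l + 2) * k + e2) := by
          rw [← two_mul, ← pow_succ', ← pow_add]
          congr 1
          ring

/-- the analytic part -/
theorem m10_real (d m l k s b : ℕ) (x y : ℝ) (hx : x = Real.log d) (hy : y = Real.log x)
    (hd : 32 ≤ d) (hm : m = Nat.log 2 d) (hl : l = m / 4)
    (hs : s = 3 * m + 10) (hb : b = 2 * Nat.log 2 s + 8)
    (hlk : l * k ≤ 2 * d) (hy1 : 1 ≤ y) (hx10 : 10 ≤ x) (hbig : (5000 * x ^ 3) ^ 2 ≤ d) :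
    ((2 * d + 1 + (m + 3) + k * (l + 2 + (3 * m + 6) * (8 * 2 ^ l * s)) + (l + 2) * k +
      (m + 3 + b * k) * (2 * d + 1) : ℕ) : ℝ) ≤ 2000 * (d : ℝ) ^ 2 * y / x := by
  have hd0 : d ≠ 0 := by omega
  have hdR : (0 : ℝ) < d := by
    have : 0 < d := by omega
    exact_mod_cast this
  have hx0 : 0 < x := by linarith
  have hlog2 : 0.6931471803 < Real.log 2 := Real.log_two_gt_d9
  have hlog2' : Real.log 2 < 0.6931471808 := Real.log_two_lt_d9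
  have hm1 : 2 ^ m ≤ d := by rw [hm]; exact Nat.pow_log_le_self 2 hd0
  have hm2 : d < 2 ^ (m + 1) := by
    rw [hm]
    exact Nat.lt_pow_succ_log_self (by norm_num) d
  have hmx : x ≤ m := by
    have h1 : (d : ℝ) < 2 ^ (m + 1) := by exact_mod_cast hm2
    have h2 : x < (m + 1) * Real.log 2 := by
      have h3 := Real.log_lt_log hdR h1
      rw [Real.log_pow] at h3
      push_cast at h3
      rw [hx]
      exact h3
    have h3 : ((m : ℝ) + 1) * Real.log 2 ≤ ((m : ℝ) + 1) * 0.7 := by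
      gcongr
      linarith
    linarith
  have hmx2 : (m : ℝ) ≤ 2 * x := by
    have h1 : (2 : ℝ) ^ m ≤ d := by exact_mod_cast hm1
    have h2 : (m : ℝ) * Real.log 2 ≤ x := by
      have h3 := Real.log_le_log (by positivity) h1
      rw [Real.log_pow] at h3
      rw [hx]
      exact h3
    have h3 : (m : ℝ) * 0.5 ≤ (m : ℝ) * Real.log 2 := by
      gcongr
      linarith
    linarith
  have hm10 : 10 ≤ m := by
    have : (10 : ℝ) ≤ m := by linarith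
    exact_mod_cast this
  have hlpos : 0 < l := by omega
  have hl8 : m ≤ 8 * l := by omega
  have hl8' : x ≤ 8 * (l : ℝ) := by
    have : (m : ℝ) ≤ 8 * l := by exact_mod_cast hl8
    linarith
  have hlR : (1 : ℝ) ≤ l := by exact_mod_cast hlpos
  have hkR : (0 : ℝ) ≤ k := Nat.cast_nonneg _
  have hlkR : (l : ℝ) * k ≤ 2 * d := by exact_mod_cast hlk
  have hk2d : (k : ℝ) ≤ 2 * d := by
    calc (k : ℝ) = 1 * k := (one_mul _).symm
      _ ≤ (l : ℝ) * k := by gcongr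
      _ ≤ 2 * d := hlkR
  have hkx : (k : ℝ) * x ≤ 16 * d := by
    calc (k : ℝ) * x ≤ (k : ℝ) * (8 * l) := by gcongr
      _ = 8 * ((l : ℝ) * k) := by ring
      _ ≤ 16 * d := by linarith
  -- the size of q
  have hqd : ((2 : ℝ) ^ l) ^ 2 ≤ d := by
    have h1 : (2 ^ l) ^ 2 ≤ d := by
      rw [← pow_mul]
      exact (Nat.pow_le_pow_right (by norm_num) (by omega)).trans hm1
    exact_mod_cast h1
  have hx3 : (0 : ℝ) ≤ x ^ 3 := by positivity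
  have hq3 : 5000 * (2 : ℝ) ^ l * x ^ 3 ≤ d := by
    have h1 : (5000 * (2 : ℝ) ^ l * x ^ 3) ^ 2 ≤ (d : ℝ) ^ 2 := by
      calc (5000 * (2 : ℝ) ^ l * x ^ 3) ^ 2 = ((2 : ℝ) ^ l) ^ 2 * (5000 * x ^ 3) ^ 2 := by ring
        _ ≤ (d : ℝ) * (d : ℝ) := by gcongr
        _ = (d : ℝ) ^ 2 := by ring
    exact (pow_le_pow_iff_left₀ (by positivity) hdR.le two_ne_zero).1 h1
  have hq1 : (1 : ℝ) ≤ 2 ^ l := one_le_pow₀ (by norm_num)
  have hx3d : 5000 * x ^ 3 ≤ d := by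
    have h1 : 5000 * x ^ 3 ≤ 5000 * (2 : ℝ) ^ l * x ^ 3 := by
      calc 5000 * x ^ 3 = 5000 * 1 * x ^ 3 := by ring
        _ ≤ 5000 * (2 : ℝ) ^ l * x ^ 3 := by gcongr
    linarith
  have hx2 : x ^ 2 ≤ x ^ 3 := pow_le_pow_right₀ (by linarith) (by norm_num)
  have hx1 : x ≤ x ^ 2 := by nlinarith
  have hxd : x ≤ d := by linarith
  have hx2d : x ^ 2 ≤ d := by linarith
  -- the size of s and b
  have hsR : (s : ℝ) ≤ 7 * x := by
    rw [hs]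
    push_cast
    linarith
  have hs0 : (0 : ℝ) < s := by
    rw [hs]
    positivity
  have hbR : (b : ℝ) ≤ 14 * y := by
    have h1 : (2 : ℝ) ^ Nat.log 2 s ≤ s := by
      have : 2 ^ Nat.log 2 s ≤ s := Nat.pow_log_le_self 2 (by omega)
      exact_mod_cast this
    have h2 : (Nat.log 2 s : ℝ) * Real.log 2 ≤ Real.log s := by
      have h3 := Real.log_le_log (by positivity) h1
      rwa [Real.log_pow] at h3
    have h3 : Real.log s ≤ 2 * y := by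
      have h4 : (s : ℝ) ≤ x ^ 2 := by nlinarith
      have h5 := Real.log_le_log hs0 h4
      rw [Real.log_pow, ← hy] at h5
      exact_mod_cast h5
    have h4 : (Nat.log 2 s : ℝ) * (2 / 3) ≤ (Nat.log 2 s : ℝ) * Real.log 2 := by
      gcongr
      linarith
    rw [hb]
    push_cast
    linarith
  have hbnn : (0 : ℝ) ≤ b := Nat.cast_nonneg _
  have hR : ∀ t c : ℝ, 0 ≤ c → t * x ≤ c * (d : ℝ) ^ 2 → t ≤ c * ((d : ℝ) ^ 2 * y / x) := by
    intro t c hc h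
    have h1 : t ≤ c * (d : ℝ) ^ 2 / x := by
      rw [le_div_iff₀ hx0]
      exact h
    refine h1.trans ?_
    rw [mul_div_assoc]
    gcongr
    calc (d : ℝ) ^ 2 = (d : ℝ) ^ 2 * 1 := (mul_one _).symm
      _ ≤ (d : ℝ) ^ 2 * y := by gcongr
  have hdd : (0 : ℝ) ≤ (d : ℝ) ^ 2 := by positivity
  have hd1 : (32 : ℝ) ≤ d := by exact_mod_cast hd
  -- (i)
  have t1 : (2 * (d : ℝ) + 1 + (m + 3)) ≤ 5 * ((d : ℝ) ^ 2 * y / x) := by
    apply hR _ _ (by norm_num)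
    have h1 : (2 * (d : ℝ) + 1 + (m + 3)) ≤ 5 * d := by linarith
    calc (2 * (d : ℝ) + 1 + (m + 3)) * x ≤ (5 * (d : ℝ)) * (d : ℝ) := by gcongr
      _ = 5 * (d : ℝ) ^ 2 := by ring
  -- (ii)
  have t2 : (k : ℝ) * (l + 2) ≤ 6 * ((d : ℝ) ^ 2 * y / x) := by
    apply hR _ _ (by norm_num)
    have h0 : (l : ℝ) + 2 ≤ 3 * l := by linarith
    have h1 : (k : ℝ) * (l + 2) ≤ 6 * d := by
      calc (k : ℝ) * (l + 2) ≤ (k : ℝ) * (3 * l) := by gcongr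
        _ = 3 * ((l : ℝ) * k) := by ring
        _ ≤ 6 * d := by linarith
    calc (k : ℝ) * (l + 2) * x ≤ (6 * (d : ℝ)) * (d : ℝ) := by gcongr
      _ = 6 * (d : ℝ) ^ 2 := by ring
  -- (iii)
  have t3 : (k : ℝ) * ((3 * m + 6) * (8 * 2 ^ l * s)) ≤ 1 * ((d : ℝ) ^ 2 * y / x) := by
    apply hR _ _ (by norm_num)
    have h1 : (3 * (m : ℝ) + 6) ≤ 7 * x := by linarith
    calc (k : ℝ) * ((3 * m + 6) * (8 * 2 ^ l * s)) * x
        ≤ (2 * (d : ℝ)) * ((7 * x) * (8 * 2 ^ l * (7 * x))) * x := by gcongr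
      _ = (784 * ((2 : ℝ) ^ l * x ^ 3)) * (d : ℝ) := by ring
      _ ≤ (d : ℝ) * (d : ℝ) := by
          have h2 : (0 : ℝ) ≤ 2 ^ l * x ^ 3 := by positivity
          have h3 : 784 * ((2 : ℝ) ^ l * x ^ 3) ≤ d := by linarith
          gcongr
      _ = 1 * (d : ℝ) ^ 2 := by ring
  -- (iv)
  have t4 : ((m : ℝ) + 3) * (2 * d + 1) ≤ 9 * ((d : ℝ) ^ 2 * y / x) := by
    apply hR _ _ (by norm_num)
    have h1 : ((m : ℝ) + 3) ≤ 3 * x := by linarith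
    have h2 : 2 * (d : ℝ) + 1 ≤ 3 * d := by linarith
    calc ((m : ℝ) + 3) * (2 * d + 1) * x ≤ (3 * x) * (3 * (d : ℝ)) * x := by gcongr
      _ = 9 * (d : ℝ) * x ^ 2 := by ring
      _ ≤ 9 * (d : ℝ) * (d : ℝ) := by gcongr
      _ = 9 * (d : ℝ) ^ 2 := by ring
  -- (v)
  have t5 : ((b : ℝ) * k) * (2 * d + 1) ≤ 672 * ((d : ℝ) ^ 2 * y / x) := by
    have h2 : 2 * (d : ℝ) + 1 ≤ 3 * d := by linarith
    have h3 : (k : ℝ) ≤ 16 * d / x := by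
      rw [le_div_iff₀ hx0]
      exact hkx
    calc ((b : ℝ) * k) * (2 * d + 1) ≤ ((14 * y) * (16 * d / x)) * (3 * d) := by gcongr
      _ = 672 * ((d : ℝ) ^ 2 * y / x) := by ring
  have hnn : 0 ≤ (d : ℝ) ^ 2 * y / x := by positivity
  have hexp : ((2 * d + 1 + (m + 3) + k * (l + 2 + (3 * m + 6) * (8 * 2 ^ l * s)) + (l + 2) * k +
      (m + 3 + b * k) * (2 * d + 1) : ℕ) : ℝ) =
      (2 * (d : ℝ) + 1 + (m + 3)) + (k : ℝ) * (l + 2) +
      (k : ℝ) * ((3 * m + 6) * (8 * 2 ^ l * s)) + (k : ℝ) * (l + 2) +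
      ((m : ℝ) + 3) * (2 * d + 1) + ((b : ℝ) * k) * (2 * d + 1) := by
    push_cast
    ring
  rw [hexp]
  have hfin : 2000 * (d : ℝ) ^ 2 * y / x = 2000 * ((d : ℝ) ^ 2 * y / x) := by ring
  rw [hfin]
  linarith

theorem numerics : ∃ (C : ℝ) (d0 : ℕ), 0 < C ∧ 16 ≤ d0 ∧ ∀ d : ℕ, d0 ≤ d →
    ∃ l q k D s L T M : ℕ, 0 < l ∧ q = 2 ^ l ∧ d ≤ l * k + 1 ∧ D = 1 + l * k ∧ 7 ≤ s ∧
      Real.exp (-(s : ℝ)) * ((D : ℝ) ^ 2 * (1 + q * (4 * q)) + 1) ≤ 1 / 4 ∧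
      8 * q * s < 2 ^ L ∧ T = (D * (4 * q) * L + 1) ^ (8 * q * s) ∧ M = 4 * q * T ∧
      ((q ^ k * ((D + 1) * M ^ k + (4 * q) ^ k * (2 * D * (40 * s ^ 2) ^ k) ^ D) : ℕ) : ℝ) ≤
        (2 : ℝ) ^ (C * (d : ℝ) ^ 2 * Real.log (Real.log d) / Real.log d) := by
  have e1 : ∀ᶠ x : ℝ in Filter.atTop, 10 ≤ Real.log x :=
    Real.tendsto_log_atTop.eventually_ge_atTop 10
  have e2 : ∀ᶠ x : ℝ in Filter.atTop, 1 ≤ Real.log (Real.log x) :=
    (Real.tendsto_log_atTop.comp Real.tendsto_log_atTop).eventually_ge_atTop 1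
  have e3 : ∀ᶠ x : ℝ in Filter.atTop, (5000 * (Real.log x) ^ 3) ^ 2 ≤ x := by
    have h := (Real.isLittleO_pow_log_id_atTop (n := 6)).bound
      (show (0 : ℝ) < 1 / 25000000 by norm_num)
    filter_upwards [h, Filter.eventually_ge_atTop 0] with x hx hx0
    simp only [id, Real.norm_eq_abs] at hx
    rw [abs_of_nonneg hx0] at hx
    have h1 := le_abs_self (Real.log x ^ 6)
    have h2 : (5000 * (Real.log x) ^ 3) ^ 2 = 25000000 * Real.log x ^ 6 := by ring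
    rw [h2]
    linarith
  have e4 : ∀ᶠ d : ℕ in Filter.atTop, 10 ≤ Real.log d ∧ 1 ≤ Real.log (Real.log d) ∧
      (5000 * (Real.log d) ^ 3) ^ 2 ≤ (d : ℝ) :=
    tendsto_natCast_atTop_atTop.eventually (e1.and (e2.and e3))
  obtain ⟨d1, hd1⟩ := Filter.eventually_atTop.1 e4
  refine ⟨2000, max d1 32, by norm_num, by omega, fun d hd => ?_⟩
  obtain ⟨h1, h2, h3⟩ := hd1 d (by omega)
  have hd32 : 32 ≤ d := by omega
  obtain ⟨m, hm⟩ : ∃ m, m = Nat.log 2 d := ⟨_, rfl⟩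
  obtain ⟨l, hl⟩ : ∃ l, l = m / 4 := ⟨_, rfl⟩
  obtain ⟨k, hk⟩ : ∃ k, k = d / l + 1 := ⟨_, rfl⟩
  obtain ⟨s, hs⟩ : ∃ s, s = 3 * m + 10 := ⟨_, rfl⟩
  obtain ⟨b, hb⟩ : ∃ b, b = 2 * Nat.log 2 s + 8 := ⟨_, rfl⟩
  have hb40 : 40 * s ^ 2 ≤ 2 ^ b := by
    have h4 : s < 2 ^ (Nat.log 2 s + 1) := Nat.lt_pow_succ_log_self (by norm_num) s
    have h5 : s ^ 2 ≤ (2 ^ (Nat.log 2 s + 1)) ^ 2 := Nat.pow_le_pow_left h4.le 2
    have h6 : (2 : ℕ) ^ b = 64 * (2 ^ (Nat.log 2 s + 1)) ^ 2 := by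
      rw [hb]
      ring
    rw [h6]
    nlinarith
  obtain ⟨g1, g2, g3, g4, g5, g6⟩ := m10_nat d m l k s b hm hd32 hl hk hs hb40
  have g7 := m10_real d m l k s b (Real.log d) (Real.log (Real.log d)) rfl rfl hd32 hm hl hs
    hb g3 h2 h1 h3
  refine ⟨l, 2 ^ l, k, 1 + l * k, s, d,
    ((1 + l * k) * (4 * 2 ^ l) * d + 1) ^ (8 * 2 ^ l * s),
    4 * 2 ^ l * ((1 + l * k) * (4 * 2 ^ l) * d + 1) ^ (8 * 2 ^ l * s),
    g1, rfl, g2, rfl, by omega, g5, g4, rfl, rfl, ?_⟩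
  have g8 := (Nat.cast_le (α := ℝ)).2 g6
  refine g8.trans ?_
  rw [Nat.cast_pow, Nat.cast_ofNat, ← Real.rpow_natCast]
  exact Real.rpow_le_rpow_of_exponent_le (by norm_num) g7

end Pool.Agent.Helper96.OR
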