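import Mathlib
import Pool.Agent.Helper96.OR.Defs

/-! M8: greedy embedding or a sparse rectangle. -/

namespace Pool.Agent.Helper96.OR

open Finset

theorem m8_sum (b : ℕ → ℕ → ℝ) (hb : ∀ r c, b r c = 0 ∨ b r c = 1) (r : ℕ) (C : Finset ℕ) :
    ∑ c ∈ C, b r c = ((C.filter fun c => b r c = 1).card : ℝ) := by
  classical
  rw [card_filter]
  push_cast
  refine sum_congr rfl fun c _ => ?_
  rcases hb r c with h | h
  · rw [h]; simp
  · rw [h]; simp

/-- one step: a row extending the embedding, or a sparse rectangle -/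
theorem m8_step (D : ℕ) {P : Type} [DecidableEq P] (N : Finset P) (hN : N.card ≤ D)
    (b : ℕ → ℕ → ℝ) (hb : ∀ r c, b r c = 0 ∨ b r c = 1) (X : Finset ℕ) (Y : P → Finset ℕ)
    (x : ℕ) (hX : X.card = x) (hx : 0 < x) (δ : ℝ) (hY : ∀ w, 0 < (Y w).card) :
    (∃ r ∈ X, ∀ w ∈ N, δ * (Y w).card ≤ (((Y w).filter fun c => b r c = 1).card : ℝ)) ∨
    (∃ w ∈ N, ∃ B ⊆ X, (x : ℝ) ≤ (D + 1) * B.card ∧ 0 < B.card ∧ dens b B (Y w) < δ) := by
  classical
  by_contra hcon
  push Not at hcon
  obtain ⟨h1, h2⟩ := hcon
  have h1' : ∀ r ∈ X, ∃ w ∈ N, (((Y w).filter fun c => b r c = 1).card : ℝ) < δ * (Y w).card :=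
    h1
  -- a choice
  obtain ⟨r0, hr0⟩ : X.Nonempty := by rw [← card_pos, hX]; exact hx
  obtain ⟨w0, hw0, _⟩ := h1' r0 hr0
  have hch : ∀ r, ∃ w, r ∈ X → w ∈ N ∧
      (((Y w).filter fun c => b r c = 1).card : ℝ) < δ * (Y w).card := by
    intro r
    by_cases hr : r ∈ X
    · obtain ⟨w, hw, h⟩ := h1' r hr
      exact ⟨w, fun _ => ⟨hw, h⟩⟩
    · exact ⟨w0, fun h => absurd h hr⟩
  choose wf hwf using hch
  have hmaps : ∀ r ∈ X, wf r ∈ N := fun r hr => (hwf r hr).1
  have hsum : X.card = ∑ w ∈ N, (X.filter fun r => wf r = w).card :=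
    card_eq_sum_card_fiberwise hmaps
  have hsmall : ∀ w ∈ N, ((D : ℝ) + 1) * (X.filter fun r => wf r = w).card < x := by
    intro w hw
    by_contra hc
    push Not at hc
    have hpos : 0 < (X.filter fun r => wf r = w).card := by
      rcases Nat.eq_zero_or_pos (X.filter fun r => wf r = w).card with h0 | h0
      · rw [h0] at hc
        simp only [Nat.cast_zero, mul_zero] at hc
        have : (0 : ℝ) < x := by exact_mod_cast hx
        linarith
      · exact h0
    have h3 := h2 w hw (X.filter fun r => wf r = w) (filter_subset _ _) hc hpos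
    have h4 : dens b (X.filter fun r => wf r = w) (Y w) < δ := by
      unfold dens
      have hYp : (0 : ℝ) < (Y w).card := by exact_mod_cast hY w
      have hBp : (0 : ℝ) < (X.filter fun r => wf r = w).card := by exact_mod_cast hpos
      rw [div_lt_iff₀ (by positivity)]
      calc ∑ r ∈ X.filter (fun r => wf r = w), ∑ c ∈ Y w, b r c
          < ∑ _r ∈ X.filter (fun r => wf r = w), δ * (Y w).card := by
            refine sum_lt_sum_of_nonempty (card_pos.1 hpos) fun r hr => ?_
            rw [mem_filter] at hr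
            have h5 := (hwf r hr.1).2
            rw [hr.2] at h5
            rw [m8_sum b hb]
            exact h5
        _ = δ * (((X.filter fun r => wf r = w).card : ℝ) * (Y w).card) := by
            rw [sum_const, nsmul_eq_mul]
            ring
    linarith
  have hNne : N.Nonempty := ⟨w0, hw0⟩
  have h5 : ((D : ℝ) + 1) * x < (N.card : ℝ) * x := by
    calc ((D : ℝ) + 1) * x = ∑ w ∈ N, ((D : ℝ) + 1) * (X.filter fun r => wf r = w).card := by
          rw [← mul_sum]
          congr 1
          rw [← hX]
          exact_mod_cast hsum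
      _ < ∑ _w ∈ N, (x : ℝ) := sum_lt_sum_of_nonempty hNne hsmall
      _ = (N.card : ℝ) * x := by rw [sum_const, nsmul_eq_mul]
  have h6 : (N.card : ℝ) ≤ D := by exact_mod_cast hN
  have h7 : (0 : ℝ) < x := by exact_mod_cast hx
  nlinarith

/-- Greedy (Graham-Roedl-Rucinski) dichotomy.  `P` indexes rows and columns of the pattern, `E` is
the pattern, each row and each column of the pattern has at most `D` ones.  -/
theorem grr {P : Type} [Fintype P] [DecidableEq P] (E : P → P → Prop) (D : ℕ)
    (hD : ∀ v, {w | E v w}.ncard ≤ D) (hD' : ∀ w, {v | E v w}.ncard ≤ D)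
    (b : ℕ → ℕ → ℝ) (hb : ∀ r c, b r c = 0 ∨ b r c = 1)
    (X Y : P → Finset ℕ) (x y : ℕ) (hX : ∀ v, (X v).card = x) (hY : ∀ v, (Y v).card = y)
    (hx : 0 < x) (hy : 0 < y) (δ : ℝ) (hδ0 : 0 < δ) (hδ1 : δ ≤ 1) :
    (∃ r c : P → ℕ, (∀ v, r v ∈ X v) ∧ (∀ w, c w ∈ Y w) ∧ ∀ v w, E v w → b (r v) (c w) = 1) ∨
    (∃ v w, ∃ B ⊆ X v, ∃ C ⊆ Y w, (x : ℝ) ≤ (D + 1) * B.card ∧ δ ^ D * y ≤ C.card ∧
      0 < B.card ∧ 0 < C.card ∧ dens b B C < δ) := by
  classical
  by_contra hcon
  push Not at hcon
  obtain ⟨hnoR, hnoS⟩ := hcon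
  have hyr : (0 : ℝ) < y := by exact_mod_cast hy
  have hcol : ∀ (S : Finset P) (w : P), (S.filter fun v => E v w).card ≤ D := by
    intro S w
    refine le_trans ?_ (hD' w)
    rw [← Set.ncard_coe_finset]
    refine Set.ncard_le_ncard ?_ (Set.toFinite _)
    intro v hv
    rw [mem_coe, mem_filter] at hv
    exact hv.2
  have key : ∀ S : Finset P, ∃ r : P → ℕ, (∀ v ∈ S, r v ∈ X v) ∧
      ∀ w, δ ^ (S.filter fun v => E v w).card * y ≤
        (((Y w).filter fun c => ∀ v ∈ S, E v w → b (r v) c = 1).card : ℝ) := by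
    intro S
    induction S using Finset.induction_on with
    | empty =>
      refine ⟨fun _ => 0, by simp, fun w => ?_⟩
      simp [hY w]
    | insert v0 S hv0 ih =>
      obtain ⟨r, hrX, hrY⟩ := ih
      set Y' : P → Finset ℕ := fun w => (Y w).filter fun c => ∀ v ∈ S, E v w → b (r v) c = 1
        with hY'
      have hlow : ∀ w, δ ^ D * y ≤ ((Y' w).card : ℝ) := by
        intro w
        refine le_trans ?_ (hrY w)
        refine mul_le_mul_of_nonneg_right ?_ hyr.le
        exact pow_le_pow_of_le_one hδ0.le hδ1 (hcol S w)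
      have hpos : ∀ w, 0 < (Y' w).card := by
        intro w
        have : (0 : ℝ) < ((Y' w).card : ℝ) := lt_of_lt_of_le (by positivity) (hlow w)
        exact_mod_cast this
      have hN : (univ.filter fun w => E v0 w).card ≤ D := by
        refine le_trans (le_of_eq ?_) (hD v0)
        rw [← Set.ncard_coe_finset]
        congr 1
        ext w
        simp
      rcases m8_step D (univ.filter fun w => E v0 w) hN b hb (X v0) Y' x (hX v0) hx δ hpos with
        h | h
      · obtain ⟨r0, hr0, hr0'⟩ := h
        refine ⟨Function.update r v0 r0, ?_, ?_⟩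
        · intro v hv
          rcases mem_insert.1 hv with rfl | hv
          · rw [Function.update_self]; exact hr0
          · have hne : v ≠ v0 := fun h => hv0 (h ▸ hv)
            rw [Function.update_of_ne hne]
            exact hrX v hv
        · intro w
          by_cases hE : E v0 w
          · have h1 : ((insert v0 S).filter fun v => E v w).card =
                (S.filter fun v => E v w).card + 1 := by
              rw [filter_insert, if_pos hE, card_insert_of_notMem]
              intro h
              exact hv0 (mem_filter.1 h).1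
            have h2 : ((Y w).filter fun c => ∀ v ∈ insert v0 S, E v w →
                b (Function.update r v0 r0 v) c = 1) = (Y' w).filter fun c => b r0 c = 1 := by
              ext c
              rw [hY']
              simp only [mem_filter, mem_insert, forall_eq_or_imp, Function.update_self]
              constructor
              · rintro ⟨hc, h3, h4⟩
                refine ⟨⟨hc, fun v hv hEv => ?_⟩, h3 hE⟩
                have hne : v ≠ v0 := fun h => hv0 (h ▸ hv)
                have h5 := h4 v hv hEv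
                rwa [Function.update_of_ne hne] at h5
              · rintro ⟨⟨hc, h3⟩, h4⟩
                refine ⟨hc, fun _ => h4, fun v hv hEv => ?_⟩
                have hne : v ≠ v0 := fun h => hv0 (h ▸ hv)
                rw [Function.update_of_ne hne]
                exact h3 v hv hEv
            rw [h1, h2]
            have h3 := hr0' w (mem_filter.2 ⟨mem_univ _, hE⟩)
            calc δ ^ ((S.filter fun v => E v w).card + 1) * y =
                δ * (δ ^ (S.filter fun v => E v w).card * y) := by rw [pow_succ]; ring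
              _ ≤ δ * ((Y' w).card : ℝ) := mul_le_mul_of_nonneg_left (hrY w) hδ0.le
              _ ≤ _ := h3
          · have h1 : ((insert v0 S).filter fun v => E v w) = (S.filter fun v => E v w) := by
              rw [filter_insert, if_neg hE]
            have h2 : ((Y w).filter fun c => ∀ v ∈ insert v0 S, E v w →
                b (Function.update r v0 r0 v) c = 1) = Y' w := by
              ext c
              rw [hY']
              simp only [mem_filter, mem_insert, forall_eq_or_imp, Function.update_self]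
              constructor
              · rintro ⟨hc, h3, h4⟩
                refine ⟨hc, fun v hv hEv => ?_⟩
                have hne : v ≠ v0 := fun h => hv0 (h ▸ hv)
                have h5 := h4 v hv hEv
                rwa [Function.update_of_ne hne] at h5
              · rintro ⟨hc, h3⟩
                refine ⟨hc, fun h => absurd h hE, fun v hv hEv => ?_⟩
                have hne : v ≠ v0 := fun h => hv0 (h ▸ hv)
                rw [Function.update_of_ne hne]
                exact h3 v hv hEv
            rw [h1, h2]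
            exact hrY w
      · obtain ⟨w, _, B, hB, h1, h2, h3⟩ := h
        have := hnoS v0 w B hB (Y' w) (filter_subset _ _) h1 (hlow w) h2 (hpos w)
        linarith
  obtain ⟨r, hrX, hrY⟩ := key univ
  have hex : ∀ w, ∃ c, c ∈ (Y w).filter fun c => ∀ v ∈ (univ : Finset P), E v w →
      b (r v) c = 1 := by
    intro w
    have h1 : (0 : ℝ) < (((Y w).filter fun c => ∀ v ∈ (univ : Finset P), E v w →
        b (r v) c = 1).card : ℝ) := lt_of_lt_of_le (by positivity) (hrY w)
    have h2 : 0 < ((Y w).filter fun c => ∀ v ∈ (univ : Finset P), E v w →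
        b (r v) c = 1).card := by exact_mod_cast h1
    exact card_pos.1 h2
  choose c hc using hex
  obtain ⟨v, w, hE, hne⟩ := hnoR r c (fun v => hrX v (mem_univ v))
    (fun w => (mem_filter.1 (hc w)).1)
  exact hne ((mem_filter.1 (hc w)).2 v (mem_univ v) hE)

theorem m8_avg (f : ℕ → ℝ) (x : ℕ) (hx : 0 < x) : ∀ (k : ℕ) (B : Finset ℕ), B.card = x + k →
    ∃ B' ⊆ B, B'.card = x ∧ (∑ r ∈ B', f r) / x ≤ (∑ r ∈ B, f r) / B.card := by
  intro k
  induction k with
  | zero =>
    intro B hB
    refine ⟨B, Subset.rfl, by simpa using hB, ?_⟩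
    rw [hB, add_zero]
  | succ k ih =>
    intro B hB
    have hBne : B.Nonempty := by rw [← card_pos]; omega
    obtain ⟨a, ha, hmax⟩ := exists_max_image B f hBne
    have hcard : (B.erase a).card = x + k := by
      rw [card_erase_of_mem ha]; omega
    obtain ⟨B', hB', h1, h2⟩ := ih (B.erase a) hcard
    refine ⟨B', hB'.trans (erase_subset _ _), h1, h2.trans ?_⟩
    have hs : ∑ r ∈ B, f r = f a + ∑ r ∈ B.erase a, f r := (add_sum_erase B f ha).symm
    have hle : ∑ r ∈ B.erase a, f r ≤ (B.erase a).card * f a := by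
      rw [← nsmul_eq_mul]
      exact sum_le_card_nsmul _ _ _ fun r hr => hmax r (mem_of_mem_erase hr)
    have hc1 : (0 : ℝ) < (B.erase a).card := by
      rw [hcard]
      exact_mod_cast (by omega : 0 < x + k)
    have hc2 : (B.card : ℝ) = (B.erase a).card + 1 := by
      rw [hB, hcard]
      push_cast
      ring
    rw [hs, hc2, div_le_div_iff₀ hc1 (by linarith)]
    nlinarith

/-- a rectangle contains a rectangle of any smaller size with no larger density -/
theorem exact_size (b : ℕ → ℕ → ℝ) (hb : ∀ r c, 0 ≤ b r c) (B C : Finset ℕ) (x y : ℕ)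
    (hx : 0 < x) (hy : 0 < y) (hxB : x ≤ B.card) (hyC : y ≤ C.card) :
    ∃ B' ⊆ B, ∃ C' ⊆ C, B'.card = x ∧ C'.card = y ∧ dens b B' C' ≤ dens b B C := by
  have _ := hb
  obtain ⟨k, hk⟩ := Nat.exists_eq_add_of_le hxB
  obtain ⟨l, hl⟩ := Nat.exists_eq_add_of_le hyC
  obtain ⟨B', hB', hBc, h1⟩ := m8_avg (fun r => ∑ c ∈ C, b r c) x hx k B hk
  obtain ⟨C', hC', hCc, h2⟩ := m8_avg (fun c => ∑ r ∈ B', b r c) y hy l C hl
  refine ⟨B', hB', C', hC', hBc, hCc, ?_⟩
  have hxr : (0 : ℝ) < x := by exact_mod_cast hx
  have hyr : (0 : ℝ) < y := by exact_mod_cast hy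
  have hCr : (0 : ℝ) < C.card := by
    have : 0 < C.card := by omega
    exact_mod_cast this
  have hBr : (0 : ℝ) < B.card := by
    have : 0 < B.card := by omega
    exact_mod_cast this
  unfold dens
  rw [hBc, hCc]
  calc (∑ r ∈ B', ∑ c ∈ C', b r c) / ((x : ℝ) * y) =
        ((∑ c ∈ C', ∑ r ∈ B', b r c) / y) / x := by
        rw [sum_comm]
        field_simp
    _ ≤ ((∑ c ∈ C, ∑ r ∈ B', b r c) / C.card) / x := div_le_div_of_nonneg_right h2 hxr.le
    _ = ((∑ r ∈ B', ∑ c ∈ C, b r c) / x) / C.card := by
        rw [sum_comm]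
        field_simp
    _ ≤ ((∑ r ∈ B, ∑ c ∈ C, b r c) / B.card) / C.card := div_le_div_of_nonneg_right h1 hCr.le
    _ = (∑ r ∈ B, ∑ c ∈ C, b r c) / ((B.card : ℝ) * C.card) := by rw [div_div]

end Pool.Agent.Helper96.OR
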