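import Mathlib
import Pool.Agent.Helper96.OR.Iterate
import Pool.Agent.Helper96.OR.M8
import Pool.Agent.Helper96.OR.M10

/-! Assembly. -/

namespace Pool.Agent.Helper96.OR

open Finset

/-- rows and columns of a pattern give an ordered copy of the cube -/
theorem copy_of_pattern (q k d : ℕ) (h : Fin q → Fin q → Prop)
    (φ : (Fin d → Bool) → Bool × Idx q k) (hφ : Function.Injective φ)
    (hφ2 : ∀ x x', hammingDist x x' = 1 → (φ x).1 ≠ (φ x').1 ∧
        ((φ x).2 = (φ x').2 ∨ adj h k (φ x).2 (φ x').2)) :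
    ∃ σ : Fin (2 ^ d) ≃ (Fin d → Bool), ∀ (N m : ℕ) (f : Fin N → Fin N → Bool) (β : Bool)
      (r c : Idx q k → ℕ), (∀ v, r v < m) → (∀ v, m ≤ c v) → (∀ v, c v < N) →
      (∀ v v', rank k v < rank k v' → r v < r v') →
      (∀ v v', rank k v < rank k v' → c v < c v') →
      (∀ v w, (v = w ∨ adj h k v w) → ∀ (hr : r v < N) (hc : c w < N),
        f ⟨r v, hr⟩ ⟨c w, hc⟩ = β) →
      ∃ g : Fin (2 ^ d) → Fin N, StrictMono g ∧ ∀ i j : Fin (2 ^ d), i < j →
        hammingDist (σ i) (σ j) = 1 → f (g i) (g j) = β := by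
  classical
  let key : (Fin d → Bool) → ℕ := fun x => (if (φ x).1 = true then q ^ k else 0) + rank k (φ x).2
  have hkey : Function.Injective key := by
    intro x x' hxx
    apply hφ
    have h1 := rank_lt q k (φ x).2
    have h2 := rank_lt q k (φ x').2
    simp only [key] at hxx
    by_cases h3 : (φ x).1 = true <;> by_cases h4 : (φ x').1 = true
    · rw [if_pos h3, if_pos h4] at hxx
      exact Prod.ext (h3.trans h4.symm) (rank_inj q k (by omega))
    · rw [if_pos h3, if_neg h4] at hxx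
      omega
    · rw [if_neg h3, if_pos h4] at hxx
      omega
    · rw [if_neg h3, if_neg h4] at hxx
      refine Prod.ext ?_ (rank_inj q k (by omega))
      rw [Bool.not_eq_true] at h3 h4
      exact h3.trans h4.symm
  obtain ⟨σ, hσ⟩ := sort_key d key hkey
  refine ⟨σ, ?_⟩
  intro N m f β r c hr hc hcN hro hco hE
  let g' : (Fin d → Bool) → ℕ := fun x => if (φ x).1 = true then c (φ x).2 else r (φ x).2
  have hg' : ∀ x, g' x < N := by
    intro x
    simp only [g']
    split_ifs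
    · exact hcN _
    · exact (hr _).trans ((hc (φ x).2).trans_lt (hcN _))
  refine ⟨fun i => ⟨g' (σ i), hg' _⟩, ?_, ?_⟩
  · intro i j hij
    have h0 := hσ hij
    rw [Fin.mk_lt_mk]
    have h1 := rank_lt q k (φ (σ i)).2
    have h2 := rank_lt q k (φ (σ j)).2
    simp only [key] at h0
    simp only [g']
    by_cases h3 : (φ (σ i)).1 = true <;> by_cases h4 : (φ (σ j)).1 = true
    · rw [if_pos h3, if_pos h4] at h0 ⊢
      exact hco _ _ (by omega)
    · rw [if_pos h3, if_neg h4] at h0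
      omega
    · rw [if_neg h3, if_pos h4]
      exact (hr _).trans_le (hc _)
    · rw [if_neg h3, if_neg h4] at h0 ⊢
      exact hro _ _ (by omega)
  · intro i j hij hd
    obtain ⟨h1, h2⟩ := hφ2 _ _ hd
    have h0 := hσ hij
    have h5 := rank_lt q k (φ (σ i)).2
    have h6 := rank_lt q k (φ (σ j)).2
    simp only [key] at h0
    by_cases h3 : (φ (σ i)).1 = true <;> by_cases h4 : (φ (σ j)).1 = true
    · exact absurd (h3.trans h4.symm) h1
    · rw [if_pos h3, if_neg h4] at h0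
      omega
    · have h7 : g' (σ i) = r (φ (σ i)).2 := if_neg h3
      have h8 : g' (σ j) = c (φ (σ j)).2 := if_pos h4
      have h9 := hE _ _ h2 (by rw [← h7]; exact hg' _) (by rw [← h8]; exact hg' _)
      have e1 : (⟨g' (σ i), hg' _⟩ : Fin N) = ⟨r (φ (σ i)).2, by rw [← h7]; exact hg' _⟩ :=
        Fin.ext h7
      have e2 : (⟨g' (σ j), hg' _⟩ : Fin N) = ⟨c (φ (σ j)).2, by rw [← h8]; exact hg' _⟩ :=
        Fin.ext h8
      change f ⟨g' (σ i), hg' _⟩ ⟨g' (σ j), hg' _⟩ = β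
      rw [e1, e2]
      exact h9
    · rw [Bool.not_eq_true] at h3 h4
      exact absurd (h3.trans h4.symm) h1

theorem main_param (q l k d D s L T M : ℕ) (hq : q = 2 ^ l) (hd : d ≤ l * k + 1)
    (hD : D = 1 + l * k) (hs : 7 ≤ s)
    (hs2 : Real.exp (-(s : ℝ)) * ((D : ℝ) ^ 2 * (1 + q * (4 * q)) + 1) ≤ 1 / 4)
    (hL : 8 * q * s < 2 ^ L) (hT : T = (D * (4 * q) * L + 1) ^ (8 * q * s))
    (hM : M = 4 * q * T) :
    ∃ σ : Fin (2 ^ d) ≃ (Fin d → Bool), ∀ N : ℕ,
      q ^ k * ((D + 1) * M ^ k + (4 * q) ^ k * (2 * D * (40 * s ^ 2) ^ k) ^ D) ≤ N →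
      ∀ f : Fin N → Fin N → Bool, ∃ g : Fin (2 ^ d) → Fin N, StrictMono g ∧
        ∃ b : Bool, ∀ i j : Fin (2 ^ d), i < j → hammingDist (σ i) (σ j) = 1 →
          f (g i) (g j) = b := by
  classical
  have hq0 : 0 < q := by rw [hq]; positivity
  obtain ⟨h, φ, hh, hi, hl, hφ, hφ2⟩ : ∃ (h : Fin q → Fin q → Prop)
      (φ : (Fin d → Bool) → Bool × Idx q k),
      (∀ y y', h y y' → h y' y) ∧ (∀ y, ¬ h y y) ∧ (∀ y, {y' | h y y'}.ncard ≤ l) ∧
      Function.Injective φ ∧
      ∀ x x', hammingDist x x' = 1 → (φ x).1 ≠ (φ x').1 ∧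
        ((φ x).2 = (φ x').2 ∨ adj h k (φ x).2 (φ x').2) := by
    subst hq
    exact cube_code l k d hd
  obtain ⟨σ, hσ⟩ := copy_of_pattern q k d h φ hφ hφ2
  refine ⟨σ, ?_⟩
  intro N hN f
  have hD0 : 0 < D := by omega
  have hM0 : 0 < M := by rw [hM, hT]; positivity
  set x0 := (D + 1) * M ^ k with hx0
  set y0 := (4 * q) ^ k * (2 * D * (40 * s ^ 2) ^ k) ^ D with hy0
  have hx0' : 0 < x0 := by positivity
  have hy0' : 0 < y0 := by
    rw [hy0]
    have : 0 < s := by omega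
    positivity
  set m := q ^ k * x0 with hm
  have hmN : m + q ^ k * y0 ≤ N := by rw [hm, ← mul_add]; exact hN
  let b : ℕ → ℕ → ℝ := fun r c => if ∃ (hr : r < N) (hc : c < N), f ⟨r, hr⟩ ⟨c, hc⟩ = true
    then 1 else 0
  have hb : ∀ r c, b r c = 0 ∨ b r c = 1 := fun r c => by
    simp only [b]
    split_ifs
    · exact Or.inr rfl
    · exact Or.inl rfl
  have hb1 : ∀ r c, b r c = 1 → ∀ (hr : r < N) (hc : c < N), f ⟨r, hr⟩ ⟨c, hc⟩ = true := by
    intro r c h1 hr hc
    by_contra h2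
    have : b r c = 0 := if_neg fun ⟨_, _, h3⟩ => h2 h3
    rw [this] at h1
    exact zero_ne_one h1
  have hb0 : ∀ r c, b r c = 0 → ∀ (hr : r < N) (hc : c < N), f ⟨r, hr⟩ ⟨c, hc⟩ = false := by
    intro r c h1 hr hc
    by_contra h2
    rw [Bool.not_eq_false] at h2
    have : b r c = 1 := if_pos ⟨hr, hc, h2⟩
    rw [this] at h1
    exact one_ne_zero h1
  have hbn : ∀ r c, 0 ≤ b r c := fun r c => by
    rcases hb r c with h | h <;> rw [h]
    exact zero_le_one
  let X : Idx q k → Finset ℕ := fun v => Ico (rank k v * x0) ((rank k v + 1) * x0)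
  let Y : Idx q k → Finset ℕ := fun v => Ico (m + rank k v * y0) (m + (rank k v + 1) * y0)
  have hX : ∀ v, (X v).card = x0 := fun v => by
    simp only [X]
    rw [Nat.card_Ico, add_mul, one_mul]
    omega
  have hY : ∀ v, (Y v).card = y0 := fun v => by
    simp only [Y]
    rw [Nat.card_Ico, add_mul, one_mul]
    omega
  have hXm : ∀ v, ∀ x ∈ X v, x < m := by
    intro v x hx
    have h1 := (mem_Ico.1 hx).2
    have h2 : (rank k v + 1) * x0 ≤ q ^ k * x0 := Nat.mul_le_mul_right _ (rank_lt q k v)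
    omega
  have hYm : ∀ v, ∀ x ∈ Y v, m ≤ x := by
    intro v x hx
    have h1 := (mem_Ico.1 hx).1
    omega
  have hYN : ∀ v, ∀ x ∈ Y v, x < N := by
    intro v x hx
    have h1 := (mem_Ico.1 hx).2
    have h2 : (rank k v + 1) * y0 ≤ q ^ k * y0 := Nat.mul_le_mul_right _ (rank_lt q k v)
    omega
  have hXo : ∀ v v', rank k v < rank k v' → ∀ x ∈ X v, ∀ x' ∈ X v', x < x' := by
    intro v v' hv x hx x' hx'
    have h1 := (mem_Ico.1 hx).2
    have h2 := (mem_Ico.1 hx').1
    have h3 : (rank k v + 1) * x0 ≤ rank k v' * x0 := Nat.mul_le_mul_right _ hv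
    omega
  have hYo : ∀ v v', rank k v < rank k v' → ∀ x ∈ Y v, ∀ x' ∈ Y v', x < x' := by
    intro v v' hv x hx x' hx'
    have h1 := (mem_Ico.1 hx).2
    have h2 := (mem_Ico.1 hx').1
    have h3 : (rank k v + 1) * y0 ≤ rank k v' * y0 := Nat.mul_le_mul_right _ hv
    omega
  have hdeg : ∀ v, {w | v = w ∨ adj h k v w}.ncard ≤ D := by
    intro v
    have h1 : {w | v = w ∨ adj h k v w} ⊆ insert v {w | adj h k v w} := by
      rintro w (h2 | h2)
      · exact Or.inl h2.symm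
      · exact Or.inr h2
    have h2 := adj_deg h l hl k v
    have h3 := (Set.ncard_le_ncard h1 (Set.toFinite _)).trans (Set.ncard_insert_le _ _)
    omega
  have hdeg' : ∀ w, {v | v = w ∨ adj h k v w}.ncard ≤ D := by
    intro w
    refine le_trans (Set.ncard_le_ncard ?_ (Set.toFinite _)) (hdeg w)
    rintro v (h2 | h2)
    · exact Or.inl h2.symm
    · exact Or.inr (adj_symm h hh k v w h2)
  set G : ℕ := (40 * s ^ 2) ^ k with hG
  have hG0 : 0 < G := by
    have : 0 < s := by omega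
    positivity
  have hGr : (0 : ℝ) < G := by exact_mod_cast hG0
  have hDr : (0 : ℝ) < D := by exact_mod_cast hD0
  have hδ0 : (0 : ℝ) < 1 / (2 * D * G) := by positivity
  have hδ1 : (1 : ℝ) / (2 * D * G) ≤ 1 := by
    rw [div_le_one (by positivity)]
    have : 1 ≤ 2 * D * G := Nat.one_le_iff_ne_zero.2 (by positivity)
    exact_mod_cast this
  rcases grr (fun v w => v = w ∨ adj h k v w) D hdeg hdeg' b hb X Y x0 y0 hX hY hx0' hy0'
    (1 / (2 * D * G)) hδ0 hδ1 with ⟨r, c, hr, hc, hrc⟩ | ⟨v0, w0, B, hB, C, hC, hxB, hyC, hB0, hC0, hdn⟩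
  · obtain ⟨g, hg, hg2⟩ := hσ N m f true r c (fun v => hXm v _ (hr v)) (fun v => hYm v _ (hc v))
      (fun v => hYN v _ (hc v)) (fun v v' hv => hXo v v' hv _ (hr v) _ (hr v'))
      (fun v v' hv => hYo v v' hv _ (hc v) _ (hc v'))
      (fun v w hvw hr' hc' => hb1 _ _ (hrc v w hvw) hr' hc')
    exact ⟨g, hg, true, hg2⟩
  · have h1 : M ^ k ≤ B.card := by
      have h2 : x0 ≤ (D + 1) * B.card := by exact_mod_cast hxB
      rw [hx0] at h2
      exact Nat.le_of_mul_le_mul_left h2 (Nat.succ_pos D)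
    have h2 : (4 * q) ^ k ≤ C.card := by
      have h3 : (1 / (2 * D * G) : ℝ) ^ D * y0 = ((4 * q) ^ k : ℕ) := by
        rw [hy0]
        push_cast
        rw [div_pow, one_pow]
        have : (0 : ℝ) < (2 * D * G) ^ D := by positivity
        field_simp
      rw [h3] at hyC
      exact_mod_cast hyC
    obtain ⟨B', hB', C', hC', hBc, hCc, hle⟩ := exact_size b hbn B C (M ^ k) ((4 * q) ^ k)
      (by positivity) (by positivity) h1 h2
    obtain ⟨r, c, hr, hc, hro, hco, hrc⟩ := pattern (b := b) q l k s L T M hq0 hs hL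
      (by rw [hT, hD]) hM (by rw [← hD]; exact hs2) h hh hi hl hb B' C' hBc hCc (by
        have h3 : dens b B' C' ≤ 1 / (2 * D * G) := hle.trans hdn.le
        have h4 : (1 + (l : ℝ) * k) = D := by rw [hD]; push_cast; ring
        have h5 : (2 * (40 * (s : ℝ) ^ 2) ^ k) = 2 * G := by rw [hG]; push_cast; ring
        rw [h4, h5]
        calc (D : ℝ) * dens b B' C' ≤ D * (1 / (2 * D * G)) := by gcongr
          _ = 1 / (2 * G) := by field_simp)
    have hrX : ∀ v, r v ∈ X v0 := fun v => hB (hB' (hr v))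
    have hcY : ∀ v, c v ∈ Y w0 := fun v => hC (hC' (hc v))
    obtain ⟨g, hg, hg2⟩ := hσ N m f false r c (fun v => hXm v0 _ (hrX v))
      (fun v => hYm w0 _ (hcY v)) (fun v => hYN w0 _ (hcY v)) hro hco
      (fun v w hvw hr' hc' => hb0 _ _ (hrc v w hvw) hr' hc')
    exact ⟨g, hg, false, hg2⟩

end Pool.Agent.Helper96.OR
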