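import Mathlib
import Pool.Agent.Helper96.OR.Final

/-!
Ordered Ramsey numbers of hypercube orderings: for all large `d` some ordering of `Q_d` has
ordered Ramsey number at most `2 ^ (C d^2 log log d / log d)`, hence `2 ^ (o (d^2))`.
The ordering is given by a bijection `σ` from `Fin (2 ^ d)` to the vertices of the cube,
and a colouring of the pairs `x < y` of `Fin N` by `f x y`.
-/

namespace Pool.Agent.Results.MP_09b4c2_co.CubeOrdering

theorem result : ∃ (C : ℝ) (d₀ : ℕ), ∀ d : ℕ, d₀ ≤ d →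
    ∃ σ : Fin (2 ^ d) ≃ (Fin d → Bool), ∀ N : ℕ,
      (2 : ℝ) ^ (C * (d : ℝ) ^ 2 * Real.log (Real.log d) / Real.log d) ≤ N →
      ∀ f : Fin N → Fin N → Bool,
        ∃ g : Fin (2 ^ d) → Fin N, StrictMono g ∧
          ∃ b : Bool, ∀ i j : Fin (2 ^ d), i < j →
            hammingDist (σ i) (σ j) = 1 → f (g i) (g j) = b := by
  obtain ⟨C, d0, -, -, h⟩ := Pool.Agent.Helper96.OR.numerics
  refine ⟨C, d0, fun d hd => ?_⟩
  obtain ⟨l, q, k, D, s, L, T, M, -, hq, hdk, hD, hs, hs2, hL, hT, hM, hN⟩ := h d hd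
  obtain ⟨σ, hσ⟩ := Pool.Agent.Helper96.OR.main_param q l k d D s L T M hq hdk hD hs hs2 hL hT hM
  refine ⟨σ, fun N hNN f => hσ N ?_ f⟩
  exact_mod_cast hN.trans hNN

end Pool.Agent.Results.MP_09b4c2_co.CubeOrdering
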